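import Pool.Agent.MP_4aec10_nt.Defs

set_option autoImplicit false

/-! The inequality of Q1 for tori at a given point. -/

namespace Pool.Agent.MP_4aec10_nt

/-- The inequality of Q1 for the torus with index set `ι` at the point `r` of its Lie algebra:
`trdeg_F F(r, e^r) ≥ d(e^r)`. -/
def Ineq {ι : Type} [Fintype ι] (r : ι → ℂ) : Prop :=
  (dd (fun i => Complex.exp (r i)) : Cardinal) ≤ Algebra.trdeg FF
    (IntermediateField.adjoin FF (Set.range r ∪ Set.range fun i => Complex.exp (r i)))

/-- The components of `r` and of `e^r`. -/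
def comps {ι : Type} (r : ι → ℂ) : Set ℂ := Set.range r ∪ Set.range fun i => Complex.exp (r i)

end Pool.Agent.MP_4aec10_nt
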