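import Mathlib

set_option autoImplicit false

/-! Existence of partial derivatives along a transcendence basis. -/

namespace Pool.Agent.MP_4aec10_nt

open scoped TensorProduct

theorem ext_of_etale (R S T : Type) [CommRing R] [CommRing S] [CommRing T] [Algebra R S]
    [Algebra R T] [Algebra S T] [IsScalarTower R S T] [Algebra.FormallyEtale S T]
    (D0 : Derivation R S T) : ∃ D : Derivation R T T, ∀ s : S, D (algebraMap S T s) = D0 s := by
  let φ : Ω[T⁄R] →ₗ[T] T := (D0.liftKaehlerDifferential.liftBaseChange T) ∘ₗ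
      (KaehlerDifferential.tensorKaehlerEquivOfFormallyEtale R S T).symm.toLinearMap
  refine ⟨φ.compDer (KaehlerDifferential.D R T), fun s => ?_⟩
  have h := KaehlerDifferential.tensorKaehlerEquivOfFormallyEtale_symm_D_algebraMap R S T s
  have h2 : (φ.compDer (KaehlerDifferential.D R T)) (algebraMap S T s) =
      (D0.liftKaehlerDifferential.liftBaseChange T)
        ((KaehlerDifferential.tensorKaehlerEquivOfFormallyEtale R S T).symm
          (KaehlerDifferential.D R T (algebraMap S T s))) := rfl
  rw [h2, h]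
  simp

/-- A derivation on the subalgebra generated by algebraically independent elements. -/
theorem exists_D0 {K L : Type} [Field K] [Field L] [Algebra K L] (B : Set L)
    (hB : AlgebraicIndependent K ((↑) : B → L)) (s : B) :
    ∃ D0 : Derivation K (Algebra.adjoin K (Set.range ((↑) : B → L))) L,
      ∀ t : B, (t = s → D0 ⟨(t : L), Algebra.subset_adjoin ⟨t, rfl⟩⟩ = 1) ∧
        (t ≠ s → D0 ⟨(t : L), Algebra.subset_adjoin ⟨t, rfl⟩⟩ = 0) := by
  classical
  have hmul : ∀ a b : Algebra.adjoin K (Set.range ((↑) : B → L)),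
      MvPolynomial.pderiv s (hB.aevalEquiv.symm (a * b)) =
        hB.aevalEquiv.symm a * MvPolynomial.pderiv s (hB.aevalEquiv.symm b) +
        hB.aevalEquiv.symm b * MvPolynomial.pderiv s (hB.aevalEquiv.symm a) := by
    intro a b
    rw [map_mul, Derivation.leibniz]
    rfl
  let g : Algebra.adjoin K (Set.range ((↑) : B → L)) →ₗ[K] L :=
    { toFun := fun a => ((hB.aevalEquiv (MvPolynomial.pderiv s (hB.aevalEquiv.symm a)) :
        Algebra.adjoin K (Set.range ((↑) : B → L))) : L)
      map_add' := fun a b => by rw [map_add, map_add, map_add]; rfl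
      map_smul' := fun c a => by rw [map_smul, Derivation.map_smul, map_smul]; rfl }
  have hg : ∀ a, g a = ((hB.aevalEquiv (MvPolynomial.pderiv s (hB.aevalEquiv.symm a)) :
        Algebra.adjoin K (Set.range ((↑) : B → L))) : L) := fun a => rfl
  have hleib : ∀ a b, g (a * b) = a • g b + b • g a := by
    intro a b
    rw [hg, hg, hg, hmul, map_add, map_mul, map_mul, AlgEquiv.apply_symm_apply,
      AlgEquiv.apply_symm_apply]
    rfl
  refine ⟨Derivation.mk' g hleib, fun t => ?_⟩
  · have hm : (Derivation.mk' g hleib) ⟨(t : L), Algebra.subset_adjoin ⟨t, rfl⟩⟩ =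
        g ⟨(t : L), Algebra.subset_adjoin ⟨t, rfl⟩⟩ := rfl
    rw [hm, hg]
    have h1 : hB.aevalEquiv.symm ⟨(t : L), Algebra.subset_adjoin ⟨t, rfl⟩⟩ = MvPolynomial.X t := by
      rw [AlgEquiv.symm_apply_eq]
      apply Subtype.ext
      rw [hB.aevalEquiv_apply_coe]
      simp
    rw [h1, MvPolynomial.pderiv_X]
    constructor
    · intro h
      subst h
      simp
    · intro h
      rw [Pi.single_eq_of_ne h, map_zero]
      rfl

open scoped IntermediateField.algebraAdjoinAdjoin in
theorem formallyEtale_adjoin {K L : Type} [Field K] [Field L] [Algebra K L] [CharZero K]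
    (B : Set L) (hB : IsTranscendenceBasis K ((↑) : B → L)) :
    Algebra.FormallyEtale (Algebra.adjoin K (Set.range ((↑) : B → L))) L := by
  have hfe1 : Algebra.FormallyEtale (Algebra.adjoin K (Set.range ((↑) : B → L)))
      (IntermediateField.adjoin K (Set.range ((↑) : B → L))) :=
    .of_isLocalization (nonZeroDivisors _)
  have halg : Algebra.IsAlgebraic (IntermediateField.adjoin K (Set.range ((↑) : B → L))) L :=
    hB.isAlgebraic_field
  have hchar : CharZero (IntermediateField.adjoin K (Set.range ((↑) : B → L))) :=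
    charZero_of_injective_algebraMap (algebraMap K _).injective
  have hsep : Algebra.IsSeparable (IntermediateField.adjoin K (Set.range ((↑) : B → L))) L :=
    inferInstance
  have hfe2 : Algebra.FormallyEtale (IntermediateField.adjoin K (Set.range ((↑) : B → L))) L :=
    Algebra.FormallyEtale.of_isSeparable _ L
  exact .comp _ (IntermediateField.adjoin K (Set.range ((↑) : B → L))) _

theorem exists_derivation {K L : Type} [Field K] [Field L] [Algebra K L] [CharZero K]
    (B : Set L) (hB : IsTranscendenceBasis K ((↑) : B → L)) (s : B) :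
    ∃ D : Derivation K L L, D (s : L) = 1 ∧ ∀ t : B, t ≠ s → D (t : L) = 0 := by
  obtain ⟨D0, hD0⟩ := exists_D0 B hB.1 s
  have hfe := formallyEtale_adjoin B hB
  obtain ⟨D, hD⟩ := ext_of_etale K (Algebra.adjoin K (Set.range ((↑) : B → L))) L D0
  refine ⟨D, ?_, fun t ht => ?_⟩
  · exact (hD ⟨(s : L), Algebra.subset_adjoin ⟨s, rfl⟩⟩).trans ((hD0 s).1 rfl)
  · exact (hD ⟨(t : L), Algebra.subset_adjoin ⟨t, rfl⟩⟩).trans ((hD0 t).2 ht)

end Pool.Agent.MP_4aec10_nt
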