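import Mathlib

set_option autoImplicit false

/-! Definitions for MP_4aec10_nt (weak relative Schanuel statement for tori). -/

namespace Pool.Agent.MP_4aec10_nt

/-- The algebraic closure `F` in `ℂ` of the field generated over `ℚ` by the period `2πi` of `𝔾_m`. -/
noncomputable def FF : IntermediateField ℚ ℂ :=
  (algebraicClosure (IntermediateField.adjoin ℚ {(2 * Real.pi * Complex.I : ℂ)}) ℂ).restrictScalars ℚ

/-- `x` lies in a translate, by a point with nonzero algebraic coordinates, of the algebraic subgroup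
`{u | u^a = 1 for all a ∈ Λ}` of the torus with index set `ι`. -/
def LiesIn {ι : Type} [Fintype ι] (x : ι → ℂ) (Λ : AddSubgroup (ι → ℤ)) : Prop :=
  ∃ y : ι → ℂ, (∀ i, y i ≠ 0 ∧ IsAlgebraic ℚ (y i)) ∧ ∀ a ∈ Λ, ∏ i, x i ^ a i = ∏ i, y i ^ a i

/-- `d(x)`: the least dimension `|ι| - rank Λ` of an algebraic subgroup `{u | u^a = 1 for all a ∈ Λ}` of
the torus of which some translate by an algebraic point contains `x`. -/
noncomputable def dd {ι : Type} [Fintype ι] (x : ι → ℂ) : ℕ :=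
  sInf {k | ∃ Λ : AddSubgroup (ι → ℤ), k + Module.finrank ℤ Λ = Fintype.card ι ∧ LiesIn x Λ}

/-- The statement of Q1 for all tori: `trdeg_F F(r, e^r) ≥ d(e^r)`. -/
def WeakSchanuelTori : Prop :=
  ∀ (ι : Type) [Fintype ι] (r : ι → ℂ),
    (dd (fun i => Complex.exp (r i)) : Cardinal) ≤
      Algebra.trdeg FF
        (IntermediateField.adjoin FF (Set.range r ∪ Set.range fun i => Complex.exp (r i)))

/-- The linear form with integer coefficients `l`. -/
def lin {ι : Type} [Fintype ι] (l : ι → ℤ) (w : ι → ℂ) : ℂ := ∑ i, (l i : ℂ) * w i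

/-- The two kinds of special functions of `p = (x, w) ∈ ℂ^ι × ℂ^ι`, with coefficients in `K`:
`x_i - c e^{l·w}` and `c e^{l·w} + c' e^{l'·w} - 1`. -/
def IsSpecial (K : IntermediateField ℚ ℂ) {ι : Type} [Fintype ι]
    (f : (ι → ℂ) × (ι → ℂ) → ℂ) : Prop :=
  (∃ (i : ι) (c : ℂ) (l : ι → ℤ), c ∈ K ∧ ∀ p, f p = p.1 i - c * Complex.exp (lin l p.2)) ∨
    (∃ (c c' : ℂ) (l l' : ι → ℤ), c ∈ K ∧ c' ∈ K ∧
      ∀ p, f p = c * Complex.exp (lin l p.2) + c' * Complex.exp (lin l' p.2) - 1)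

/-- The numbers `e^{z_i}` are multiplicatively independent modulo the nonzero algebraic numbers. -/
def Indep {ι : Type} [Fintype ι] (z : ι → ℂ) : Prop :=
  ∀ a : ι → ℤ, IsAlgebraic ℚ (Complex.exp (lin a z)) → a = 0

/-- No `z ∈ ℂ^ι` with `e^z` multiplicatively independent modulo algebraic numbers is, placed on the
diagonal as `(z, z)`, a nondegenerate common zero of `|ι| + 1` special functions. -/
def NoTransversal : Prop :=
  ∀ (ι : Type) [Fintype ι] (z : ι → ℂ), Indep z →
    ∀ f : Option ι → (ι → ℂ) × (ι → ℂ) → ℂ, (∀ j, IsSpecial FF (f j)) → (∀ j, f j (z, z) = 0) →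
      ¬ LinearIndependent ℂ fun j => fderiv ℂ (f j) (z, z)

end Pool.Agent.MP_4aec10_nt
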