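import Pool.Agent.MP_4aec10_nt.Lin
import Pool.Agent.MP_4aec10_nt.Der

set_option autoImplicit false

/-! The easy direction: a transversal system forces a small transcendence degree. -/

namespace Pool.Agent.MP_4aec10_nt

open Complex

theorem exists_indep_subset (K : IntermediateField ℚ ℂ) (T : Set ℂ) :
    ∃ S : Set ℂ, S ⊆ T ∧ AlgebraicIndependent K ((↑) : S → ℂ) ∧
      Algebra.trdeg K (IntermediateField.adjoin K T) ≤ Cardinal.mk S := by
  let L := IntermediateField.adjoin K T
  let t' : Set L := {x | (x : ℂ) ∈ T}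
  have halg : Algebra.IsAlgebraic (Algebra.adjoin K t') L := by
    constructor
    rintro ⟨x, hx⟩
    refine IntermediateField.adjoin_induction K
      (p := fun x hx => IsAlgebraic (Algebra.adjoin K t') (⟨x, hx⟩ : L)) ?_ ?_ ?_ ?_ ?_ hx
    · intro x hxT
      have hmem : (⟨x, IntermediateField.subset_adjoin K T hxT⟩ : L) ∈ Algebra.adjoin K t' :=
        Algebra.subset_adjoin hxT
      exact isAlgebraic_algebraMap (⟨_, hmem⟩ : Algebra.adjoin K t')
    · intro x
      exact isAlgebraic_algebraMap (algebraMap K (Algebra.adjoin K t') x)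
    · intro x y hx hy h1 h2
      exact h1.add h2
    · intro x hx h1
      exact h1.inv
    · intro x y hx hy h1 h2
      exact h1.mul h2
  obtain ⟨S', hS't, hS'⟩ := exists_isTranscendenceBasis_subset (R := K) (A := L) t'
  refine ⟨(fun x : L => (x : ℂ)) '' S', ?_, ?_, ?_⟩
  · rintro _ ⟨x, hx, rfl⟩
    exact hS't hx
  · have h1 : AlgebraicIndependent K (fun x : S' => ((x : L) : ℂ)) :=
      hS'.1.map' (f := L.val) L.val.injective
    exact h1.image_of_comp S' (fun x : L => (x : ℂ)) id
  · rw [← hS'.cardinalMk_eq_trdeg]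
    exact le_of_eq (Cardinal.mk_image_eq Subtype.val_injective).symm

theorem card_add_card_le {V : Type} [NormedAddCommGroup V] [NormedSpace ℂ V]
    [FiniteDimensional ℂ V] {σ τ : Type} [Fintype σ] [Fintype τ] (φ : σ → V →L[ℂ] ℂ)
    (hφ : LinearIndependent ℂ φ) (v : τ → V) (hv : LinearIndependent ℂ v)
    (h : ∀ s t, φ s (v t) = 0) : Fintype.card σ + Fintype.card τ ≤ Module.finrank ℂ V := by
  let ψ : σ → Module.Dual ℂ V := fun s => (φ s : V →ₗ[ℂ] ℂ)
  have hψ : LinearIndependent ℂ ψ :=
    hφ.map' (ContinuousLinearMap.coeLM ℂ) (LinearMap.ker_eq_bot.mpr fun a b hab =>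
      ContinuousLinearMap.coe_injective hab)
  let W : Submodule ℂ (Module.Dual ℂ V) := Submodule.span ℂ (Set.range ψ)
  have hW : Module.finrank ℂ W = Fintype.card σ := finrank_span_eq_card hψ
  have h1 := Subspace.finrank_add_finrank_dualCoannihilator_eq W
  have h2 : Submodule.span ℂ (Set.range v) ≤ W.dualCoannihilator := by
    rw [Submodule.span_le]
    rintro _ ⟨t, rfl⟩
    rw [SetLike.mem_coe, Submodule.mem_dualCoannihilator]
    intro w hw
    refine Submodule.span_induction (p := fun w _ => w (v t) = 0) ?_ ?_ ?_ ?_ hw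
    · rintro _ ⟨s, rfl⟩
      exact h s t
    · rfl
    · intro a b _ _ ha hb
      rw [LinearMap.add_apply, ha, hb, add_zero]
    · intro c a _ ha
      rw [LinearMap.smul_apply, ha, smul_zero]
  have h3 := Submodule.finrank_mono h2
  rw [finrank_span_eq_card hv] at h3
  omega

theorem easy {K : IntermediateField ℚ ℂ} {ι : Type} [Fintype ι] (z : ι → ℂ)
    (f : Option ι → (ι → ℂ) × (ι → ℂ) → ℂ) (hf : ∀ j, IsSpecial K (f j))
    (h0 : ∀ j, f j (z, z) = 0) (hli : LinearIndependent ℂ fun j => fderiv ℂ (f j) (z, z)) :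
    Algebra.trdeg K (IntermediateField.adjoin K (Set.range z ∪ Set.range fun i => exp (z i))) <
      (Fintype.card ι : Cardinal) := by
  classical
  obtain ⟨S, hST, hS, hcard⟩ := exists_indep_subset K (Set.range z ∪ Set.range fun i => exp (z i))
  have hfin : S.Finite := ((Set.finite_range z).union (Set.finite_range _)).subset hST
  have : Fintype S := hfin.fintype
  obtain ⟨B, hSB, hB⟩ := exists_isTranscendenceBasis_superset (R := K) (A := ℂ) (s := S) hS
  choose D hD1 hD2 using fun s : S => exists_derivation B hB ⟨s, hSB s.2⟩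
  have hD : ∀ s t : S, D s (t : ℂ) = if t = s then 1 else 0 := by
    intro s t
    by_cases h : t = s
    · subst h
      rw [if_pos rfl]
      exact hD1 t
    · rw [if_neg h]
      exact hD2 s ⟨t, hSB t.2⟩ (fun h' => h (Subtype.ext (congrArg (fun x : B => (x : ℂ)) h')))
  let v : S → (ι → ℂ) × (ι → ℂ) := fun s =>
    (fun i => D s (z i), fun i => D s (exp (z i)) / exp (z i))
  have hv : LinearIndependent ℂ v := by
    rw [Fintype.linearIndependent_iff]
    intro g hg s0
    have hsum : ∀ a : ℂ, a = (s0 : ℂ) → ∑ s, g s * D s a = g s0 := by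
      rintro a rfl
      rw [Finset.sum_eq_single s0]
      · rw [hD, if_pos rfl, mul_one]
      · intro s _ hs
        rw [hD, if_neg (Ne.symm hs), mul_zero]
      · intro h
        exact absurd (Finset.mem_univ _) h
    rcases hST s0.2 with ⟨i, hi⟩ | ⟨i, hi⟩
    · have h1 := congrFun (congrArg Prod.fst hg) i
      rw [Prod.fst_sum, Finset.sum_apply] at h1
      have h2 : ∑ s, g s * D s (z i) = 0 := h1
      rw [hsum _ hi] at h2
      exact h2
    · have h1 := congrFun (congrArg Prod.snd hg) i
      rw [Prod.snd_sum, Finset.sum_apply] at h1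
      have h2 : ∑ s, g s * (D s (exp (z i)) / exp (z i)) = 0 := h1
      have h3 : (∑ s, g s * D s (exp (z i))) / exp (z i) = 0 := by
        rw [Finset.sum_div, ← h2]
        exact Finset.sum_congr rfl fun s _ => by rw [mul_div_assoc]
      rw [hsum _ hi] at h3
      exact (div_eq_zero_iff.mp h3).resolve_right (exp_ne_zero _)
  have hkill : ∀ j s, fderiv ℂ (f j) (z, z) (v s) = 0 := by
    intro j s
    rcases hf j with ⟨i, c, l, hc, hfj⟩ | ⟨c, c', l, l', hc, hc', hfj⟩
    · rw [fderiv_kindA hfj]
      have h1 := h0 j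
      rw [hfj] at h1
      have h2 : z i = c * exp (lin l z) := sub_eq_zero.mp h1
      have h3 : D s (z i) = c * (exp (lin l z) * lin l (v s).2) := by
        conv_lhs => rw [h2]
        have hc0 : D s c = 0 := (D s).map_algebraMap ⟨c, hc⟩
        rw [Derivation.leibniz, hc0, smul_zero, add_zero, smul_eq_mul, deriv_exp_lin]
      show D s (z i) - c * exp (lin l z) * lin l (v s).2 = 0
      rw [h3]
      ring
    · rw [fderiv_kindB hfj]
      have h1 := h0 j
      rw [hfj] at h1
      have h2 : c * exp (lin l z) + c' * exp (lin l' z) = 1 := sub_eq_zero.mp h1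
      have h3 := congrArg (D s) h2
      have hc0 : D s c = 0 := (D s).map_algebraMap ⟨c, hc⟩
      have hc0' : D s c' = 0 := (D s).map_algebraMap ⟨c', hc'⟩
      have h10 : D s 1 = 0 := (D s).map_one_eq_zero
      rw [map_add, Derivation.leibniz, Derivation.leibniz, hc0, hc0', h10, smul_zero, smul_zero,
        add_zero, add_zero, smul_eq_mul, smul_eq_mul, deriv_exp_lin, deriv_exp_lin] at h3
      show c * exp (lin l z) * lin l (v s).2 + c' * exp (lin l' z) * lin l' (v s).2 = 0
      rw [← h3]
      ring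
  have hmain := card_add_card_le _ hli v hv hkill
  rw [Fintype.card_option, Module.finrank_prod, Module.finrank_fintype_fun_eq_card] at hmain
  refine hcard.trans_lt ?_
  rw [Cardinal.mk_fintype]
  exact_mod_cast (by omega : Fintype.card S < Fintype.card ι)

theorem alg_zpow {x : ℂ} (hx : IsAlgebraic ℚ x) (n : ℤ) : IsAlgebraic ℚ (x ^ n) := by
  rcases n.eq_nat_or_neg with ⟨m, rfl | rfl⟩
  · rw [zpow_natCast]
    exact hx.pow m
  · rw [zpow_neg, zpow_natCast]
    exact (hx.pow m).inv

/-- For independent `z` the smallest coset is the whole torus. -/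
theorem card_le_dd {ι : Type} [Fintype ι] {z : ι → ℂ} (hz : Indep z) :
    Fintype.card ι ≤ dd (fun i => exp (z i)) := by
  classical
  have hne : {k | ∃ Λ : AddSubgroup (ι → ℤ), k + Module.finrank ℤ Λ = Fintype.card ι ∧
      LiesIn (fun i => exp (z i)) Λ}.Nonempty := by
    refine ⟨Fintype.card ι, ⊥, ?_, fun _ => 1, fun i => ⟨one_ne_zero, isAlgebraic_one⟩, ?_⟩
    · have : Module.finrank ℤ (⊥ : AddSubgroup (ι → ℤ)) = 0 := by
        have : Subsingleton (⊥ : AddSubgroup (ι → ℤ)) := inferInstance
        exact Module.finrank_zero_of_subsingleton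
      omega
    · intro a ha
      rw [AddSubgroup.mem_bot] at ha
      subst ha
      simp
  obtain ⟨Λ, hΛ, y, hy, hyΛ⟩ := Nat.sInf_mem hne
  have hbot : Λ = ⊥ := by
    rw [eq_bot_iff]
    intro a ha
    rw [AddSubgroup.mem_bot]
    refine hz a ?_
    rw [exp_lin, hyΛ a ha]
    have : ∀ s : Finset ι, IsAlgebraic ℚ (∏ i ∈ s, y i ^ a i) := by
      intro s
      induction s using Finset.induction_on with
      | empty => simpa using isAlgebraic_one
      | insert b s hb ih =>
        rw [Finset.prod_insert hb]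
        exact (alg_zpow (hy b).2 _).mul ih
    exact this Finset.univ
  subst hbot
  have : Module.finrank ℤ (⊥ : AddSubgroup (ι → ℤ)) = 0 := by
    have : Subsingleton (⊥ : AddSubgroup (ι → ℤ)) := inferInstance
    exact Module.finrank_zero_of_subsingleton
  rw [dd]
  omega

theorem mp_direction (h : WeakSchanuelTori) : NoTransversal := by
  intro ι _ z hz f hf h0 hli
  have h1 := h ι z
  have h2 := easy z f hf h0 hli
  have h3 : (Fintype.card ι : Cardinal) ≤ (dd (fun i => exp (z i)) : Cardinal) := by
    exact_mod_cast card_le_dd hz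
  exact absurd (h3.trans h1) (not_le.mpr h2)

end Pool.Agent.MP_4aec10_nt
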