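import Pool.Agent.MP_4aec10_nt.Hard

set_option autoImplicit false

/-! Reduction to independent tuples and the equivalence. -/

namespace Pool.Agent.MP_4aec10_nt

open Complex

theorem exists_maxI {ι : Type} [Fintype ι] (r : ι → ℂ) :
    ∃ I : Finset ι, (∀ a : ι → ℤ, (∀ i, i ∉ I → a i = 0) → IsAlgebraic ℚ (exp (lin a r)) → a = 0) ∧
      ∀ i, i ∉ I → ∃ (m : ℤ) (v : ι → ℤ), 0 < m ∧ v i = m ∧ (∀ k, k ≠ i → k ∉ I → v k = 0) ∧
        IsAlgebraic ℚ (exp (lin v r)) := by
  classical
  let P : Finset ι → Prop := fun I =>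
    ∀ a : ι → ℤ, (∀ i, i ∉ I → a i = 0) → IsAlgebraic ℚ (exp (lin a r)) → a = 0
  have hne : ((Finset.univ : Finset (Finset ι)).filter P).Nonempty := by
    refine ⟨∅, Finset.mem_filter.mpr ⟨Finset.mem_univ _, ?_⟩⟩
    intro a ha _
    funext i
    exact ha i (Finset.notMem_empty i)
  obtain ⟨I, hI, hmax⟩ := Finset.exists_max_image _ (fun I : Finset ι => I.card) hne
  rw [Finset.mem_filter] at hI
  refine ⟨I, hI.2, ?_⟩
  intro i hi
  have hnot : ¬ P (insert i I) := by
    intro h
    have := hmax (insert i I) (Finset.mem_filter.mpr ⟨Finset.mem_univ _, h⟩)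
    rw [Finset.card_insert_of_notMem hi] at this
    omega
  have hnot' : ∃ a : ι → ℤ, (∀ k, k ∉ insert i I → a k = 0) ∧ IsAlgebraic ℚ (exp (lin a r)) ∧
      a ≠ 0 := by
    by_contra hcon
    refine hnot fun a h1 h2 => ?_
    by_contra h3
    exact hcon ⟨a, h1, h2, h3⟩
  obtain ⟨a, ha1, ha2, ha3⟩ := hnot'
  have hai : a i ≠ 0 := by
    intro h0
    refine ha3 (hI.2 a (fun k hk => ?_) ha2)
    by_cases hki : k = i
    · rw [hki, h0]
    · exact ha1 k (fun h => by
        rcases Finset.mem_insert.mp h with h | h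
        · exact hki h
        · exact hk h)
  rcases lt_or_gt_of_ne hai with hneg | hpos
  · refine ⟨-a i, -a, by omega, rfl, fun k hk1 hk2 => ?_, ?_⟩
    · rw [Pi.neg_apply, ha1 k (fun h => by
        rcases Finset.mem_insert.mp h with h | h
        · exact hk1 h
        · exact hk2 h), neg_zero]
    · rw [lin_neg, exp_neg]
      exact ha2.inv
  · refine ⟨a i, a, hpos, rfl, fun k hk1 hk2 => ?_, ha2⟩
    exact ha1 k (fun h => by
        rcases Finset.mem_insert.mp h with h | h
        · exact hk1 h
        · exact hk2 h)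

theorem dd_le {ι : Type} [Fintype ι] (r : ι → ℂ) (I : Finset ι)
    (h : ∀ i, i ∉ I → ∃ (m : ℤ) (v : ι → ℤ), 0 < m ∧ v i = m ∧ (∀ k, k ≠ i → k ∉ I → v k = 0) ∧
        IsAlgebraic ℚ (exp (lin v r))) :
    dd (fun i => exp (r i)) ≤ I.card := by
  classical
  choose! m v hm hvi hvk halg using h
  let w : {i // i ∉ I} → ι → ℤ := fun i => v i
  have hli : LinearIndependent ℤ w := by
    rw [Fintype.linearIndependent_iff]
    intro g hg i
    have h1 := congrFun hg (i : ι)
    rw [Finset.sum_apply, Finset.sum_eq_single i] at h1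
    · change g i * v i (i : ι) = 0 at h1
      rw [hvi i i.2] at h1
      exact (mul_eq_zero.mp h1).resolve_right (hm i i.2).ne'
    · intro b _ hb
      change g b * v b (i : ι) = 0
      rw [hvk b b.2 i (fun h => hb (Subtype.ext h.symm)) i.2, mul_zero]
    · intro h
      exact absurd (Finset.mem_univ _) h
  let Λ : AddSubgroup (ι → ℤ) := (Submodule.span ℤ (Set.range w)).toAddSubgroup
  have hrank : Module.finrank ℤ Λ = Fintype.card {i // i ∉ I} := finrank_span_eq_card hli
  refine Nat.sInf_le ⟨Λ, ?_, ?_⟩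
  · rw [hrank, Fintype.card_subtype_compl]
    have : Fintype.card {x // x ∈ I} = I.card := Fintype.card_coe I
    have h2 : I.card ≤ Fintype.card ι := Finset.card_le_univ I
    omega
  · refine ⟨fun i => if i ∈ I then 1 else exp (lin (v i) r / m i), fun i => ?_, ?_⟩
    · change (if i ∈ I then (1 : ℂ) else exp (lin (v i) r / m i)) ≠ 0 ∧
        IsAlgebraic ℚ (if i ∈ I then (1 : ℂ) else exp (lin (v i) r / m i))
      by_cases hi : i ∈ I
      · rw [if_pos hi]
        exact ⟨one_ne_zero, isAlgebraic_one⟩
      · rw [if_neg hi]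
        refine ⟨exp_ne_zero _, ?_⟩
        obtain ⟨n, hn⟩ := Int.eq_ofNat_of_zero_le (hm i hi).le
        have hn0 : 0 < n := by
          have := hm i hi
          omega
        have h1 : exp (lin (v i) r / m i) ^ n = exp (lin (v i) r) := by
          rw [← exp_nat_mul, hn, Int.cast_natCast]
          congr 1
          have : (n : ℂ) ≠ 0 := Nat.cast_ne_zero.mpr hn0.ne'
          field_simp
        refine IsAlgebraic.of_pow hn0 ?_
        rw [h1]
        exact halg i hi
    · intro a ha
      have hy0 : ∀ i, (if i ∈ I then (1 : ℂ) else exp (lin (v i) r / m i)) ≠ 0 := by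
        intro i
        split_ifs
        · exact one_ne_zero
        · exact exp_ne_zero _
      refine Submodule.span_induction (p := fun a _ => ∏ i, exp (r i) ^ a i =
        ∏ i, (if i ∈ I then (1 : ℂ) else exp (lin (v i) r / m i)) ^ a i) ?_ ?_ ?_ ?_ ha
      · rintro _ ⟨i, rfl⟩
        rw [← exp_lin]
        rw [Finset.prod_eq_single (i : ι)]
        · change exp (lin (v i) r) = _ ^ v i (i : ι)
          rw [if_neg i.2, hvi i i.2, ← exp_int_mul]
          congr 1
          have : (m i : ℂ) ≠ 0 := Int.cast_ne_zero.mpr (hm i i.2).ne'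
          field_simp
        · intro b _ hb
          by_cases hbI : b ∈ I
          · rw [if_pos hbI, one_zpow]
          · change _ ^ v i b = 1
            rw [hvk i i.2 b hb hbI, zpow_zero]
        · intro h
          exact absurd (Finset.mem_univ _) h
      · simp
      · intro a b _ _ h1 h2
        simp only [Pi.add_apply]
        rw [Finset.prod_congr rfl fun i _ => zpow_add₀ (exp_ne_zero (r i)) (a i) (b i),
          Finset.prod_congr rfl fun i _ => zpow_add₀ (hy0 i) (a i) (b i),
          Finset.prod_mul_distrib, Finset.prod_mul_distrib, h1, h2]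
      · intro c a _ h1
        have key : ∀ x : ι → ℂ, ∏ i, x i ^ (c • a) i = (∏ i, x i ^ a i) ^ c := by
          intro x
          rw [← Finset.prod_zpow]
          refine Finset.prod_congr rfl fun i _ => ?_
          rw [Pi.smul_apply, smul_eq_mul, mul_comm c (a i), zpow_mul]
        rw [key (fun i => exp (r i)),
          key (fun i => if i ∈ I then (1 : ℂ) else exp (lin (v i) r / m i)), h1]

theorem FF_closed (x : ℂ) (hx : IsAlgebraic FF x) : x ∈ FF := by
  let k := IntermediateField.adjoin ℚ {(2 * Real.pi * Complex.I : ℂ)}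
  have h1 : IsAlgebraic (algebraicClosure k ℂ) x := hx
  have h2 : IsAlgebraic k x := by
    have := h1.restrictScalars k
    exact this
  exact (mem_algebraicClosure_iff (F := k) (E := ℂ)).mpr h2

theorem mpr_direction (h : NoTransversal) : WeakSchanuelTori := by
  classical
  intro ι _ r
  obtain ⟨I, hI, hmax⟩ := exists_maxI r
  have hdd := dd_le r I hmax
  have hind : Indep (fun i : I => r i) := by
    intro a ha
    let a' : ι → ℤ := fun i => if hi : i ∈ I then a ⟨i, hi⟩ else 0
    have h1 : lin a' r = lin a (fun i : I => r i) := by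
      rw [lin, lin]
      rw [← Finset.sum_subset (Finset.subset_univ I)]
      · rw [← Finset.sum_coe_sort I]
        refine Finset.sum_congr rfl fun i _ => ?_
        change ((if hi : (i : ι) ∈ I then a ⟨i, hi⟩ else 0 : ℤ) : ℂ) * r i = _
        rw [dif_pos i.2]
      · intro i _ hi
        change ((if hi : i ∈ I then a ⟨i, hi⟩ else 0 : ℤ) : ℂ) * r i = _
        rw [dif_neg hi, Int.cast_zero, zero_mul]
    have h2 := hI a' (fun i hi => dif_neg hi) (by rw [h1]; exact ha)
    funext i
    have h3 := congrFun h2 (i : ι)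
    change (if hi : (i : ι) ∈ I then a ⟨i, hi⟩ else 0) = 0 at h3
    rw [dif_pos i.2] at h3
    exact h3
  obtain ⟨S, hS, hSind, hcard⟩ := hard_indep FF_closed h hind
  have hST : S ⊆ Set.range r ∪ Set.range fun i => exp (r i) := by
    intro s hs
    rcases hS hs with ⟨i, rfl⟩ | ⟨i, rfl⟩
    · exact Or.inl ⟨i, rfl⟩
    · exact Or.inr ⟨i, rfl⟩
  let L := IntermediateField.adjoin FF (Set.range r ∪ Set.range fun i => exp (r i))
  let x : S → L := fun s => ⟨s, IntermediateField.subset_adjoin FF _ (hST s.2)⟩
  have hx : AlgebraicIndependent FF x := AlgebraicIndependent.of_comp L.val hSind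
  have h1 : Cardinal.mk S ≤ Algebra.trdeg FF L := hx.cardinalMk_le_trdeg
  rw [Fintype.card_coe] at hcard
  calc (dd (fun i => exp (r i)) : Cardinal) ≤ (I.card : Cardinal) := by exact_mod_cast hdd
    _ ≤ Cardinal.mk S := hcard
    _ ≤ _ := h1

theorem equivalence : WeakSchanuelTori ↔ NoTransversal := ⟨mp_direction, mpr_direction⟩

end Pool.Agent.MP_4aec10_nt
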