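import Pool.Agent.LTD.FinR

set_option autoImplicit false

namespace Pool.Agent.MP_4aec10_nt.GeometricProgressionsVariant

open Pool.Agent.MP_4aec10_nt LTD

/-- Algebraic independence over a given field of finite transcendence degree, hence the inequality of
Q1, at almost all `n`-tuples of a geometric progression. -/
theorem result :
    (∀ n t : ℕ, ∃ m : ℕ, 1 ≤ m ∧ ∀ F : IntermediateField ℚ ℂ, Algebra.trdeg ℚ F ≤ (t : Cardinal) →
      ∀ (x z : ℂ) (K : ℕ), z ≠ 0 →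
        (Wk x K ∨ IsAlgebraic ℚ x ∧ K ≤ (minpoly ℚ x).natDegree) →
        (Set.ncard {k : Fin n → ℕ | (∀ i, k i < K) ∧
          ¬ AlgebraicIndependent F fun i => Complex.exp (z * x ^ k i)} : ℝ) ≤
          3 * m * n * (K : ℝ) ^ ((n : ℝ) - 1 / (m : ℝ))) ∧
    (∀ n l : ℕ, ∃ m : ℕ, 1 ≤ m ∧ ∀ (x z : ℂ) (K : ℕ), z ≠ 0 →
      (Wk x K ∨ IsAlgebraic ℚ x ∧ K ≤ (minpoly ℚ x).natDegree) →
      ∀ r : Fin l → ℂ, Ineq r →
        (Set.ncard {k : Fin n → ℕ | (∀ i, k i < K) ∧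
          ¬ (dd (fun i => Complex.exp (z * x ^ k i)) = n ∧ Ineq (fun i => z * x ^ k i) ∧
            Ineq (Sum.elim r fun i => z * x ^ k i))} : ℝ) ≤
          3 * m * n * (K : ℝ) ^ ((n : ℝ) - 1 / (m : ℝ))) := by
  have hW : ∀ (x : ℂ) (K : ℕ),
      (Wk x K ∨ IsAlgebraic ℚ x ∧ K ≤ (minpoly ℚ x).natDegree) → Wk x K := by
    rintro x K (h | ⟨h1, h2⟩)
    · exact h
    · exact wk_alg x K h1 h2
  refine ⟨fun n t => ?_, fun n l => ?_⟩
  · obtain ⟨m, hm, h⟩ := geo_final n t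
    exact ⟨m, hm, fun F hF x z K hz hx => h F hF x z K hz (hW x K hx)⟩
  · obtain ⟨m, hm, h⟩ := geo_q1 n l
    exact ⟨m, hm, fun x z K hz hx => h x z K hz (hW x K hx)⟩

end Pool.Agent.MP_4aec10_nt.GeometricProgressionsVariant
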