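import Pool.Agent.MP_4aec10_nt.Defs

set_option autoImplicit false

/-! Partial derivations on multiplicatively closed sets of complex numbers. -/

namespace Pool.Agent.MP_4aec10_nt

open Polynomial

/-- `R` contains `K` and is closed under products and inverses. -/
structure RC (K : IntermediateField ℚ ℂ) (R : Set ℂ) : Prop where
  const : ∀ c ∈ K, c ∈ R
  mul : ∀ a ∈ R, ∀ b ∈ R, a * b ∈ R
  inv : ∀ a ∈ R, a⁻¹ ∈ R

/-- A partial derivation over `K` on `R`. -/
structure PD (K : IntermediateField ℚ ℂ) (R : Set ℂ) (D : ℂ → ℂ) : Prop where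
  const : ∀ c ∈ K, D c = 0
  mul : ∀ a ∈ R, ∀ b ∈ R, D (a * b) = a * D b + b * D a
  add : ∀ a ∈ R, ∀ b ∈ R, a + b ∈ R → D (a + b) = D a + D b

/-- If all of `U` lies in the domain of a partial derivation that kills `S`, then it kills `U`. -/
def GoodU (K : IntermediateField ℚ ℂ) (S : Set ℂ) (U : Finset ℂ) : Prop :=
  ∀ (R : Set ℂ) (D : ℂ → ℂ), RC K R → PD K R D → ↑U ⊆ R → (∀ s ∈ S, D s = 0) → ∀ u ∈ U, D u = 0

/-- `a` belongs to some good finite set. -/
def Van (K : IntermediateField ℚ ℂ) (S : Set ℂ) (a : ℂ) : Prop := ∃ U : Finset ℂ, a ∈ U ∧ GoodU K S U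

theorem GoodU.union {K : IntermediateField ℚ ℂ} {S : Set ℂ} {U V : Finset ℂ} [DecidableEq ℂ]
    (hU : GoodU K S U) (hV : GoodU K S V) : GoodU K S (U ∪ V) := by
  intro R D hR hD hs hS u hu
  rw [Finset.coe_union] at hs
  rcases Finset.mem_union.mp hu with h | h
  · exact hU R D hR hD (Set.subset_union_left.trans hs) hS u h
  · exact hV R D hR hD (Set.subset_union_right.trans hs) hS u h

/-- Adding one element. -/
theorem GoodU.insert {K : IntermediateField ℚ ℂ} {S : Set ℂ} {U : Finset ℂ} [DecidableEq ℂ]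
    (hU : GoodU K S U) (a : ℂ)
    (ha : ∀ (R : Set ℂ) (D : ℂ → ℂ), RC K R → PD K R D → ↑U ⊆ R → a ∈ R →
      (∀ u ∈ U, D u = 0) → (∀ s ∈ S, D s = 0) → D a = 0) : GoodU K S (insert a U) := by
  intro R D hR hD hs hS u hu
  rw [Finset.coe_insert, Set.insert_subset_iff] at hs
  have h := hU R D hR hD hs.2 hS
  rcases Finset.mem_insert.mp hu with rfl | h'
  · exact ha R D hR hD hs.2 hs.1 h hS
  · exact h u h'

theorem van_const {K : IntermediateField ℚ ℂ} {S : Set ℂ} {c : ℂ} (hc : c ∈ K) : Van K S c :=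
  ⟨{c}, Finset.mem_singleton_self _, fun _ _ _ hD _ _ u hu => by
    rw [Finset.mem_singleton.mp hu]; exact hD.const c hc⟩

theorem van_gen {K : IntermediateField ℚ ℂ} {S : Set ℂ} {s : ℂ} (hs : s ∈ S) : Van K S s :=
  ⟨{s}, Finset.mem_singleton_self _, fun _ _ _ _ _ hS u hu => by
    rw [Finset.mem_singleton.mp hu]; exact hS s hs⟩

theorem van_add {K : IntermediateField ℚ ℂ} {S : Set ℂ} {a b : ℂ} (ha : Van K S a)
    (hb : Van K S b) : Van K S (a + b) := by
  classical
  obtain ⟨U, haU, hU⟩ := ha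
  obtain ⟨V, hbV, hV⟩ := hb
  refine ⟨insert (a + b) (U ∪ V), Finset.mem_insert_self _ _, (hU.union hV).insert _ ?_⟩
  intro R D hR hD hs hab h0 _
  have ha' : a ∈ U ∪ V := Finset.mem_union_left _ haU
  have hb' : b ∈ U ∪ V := Finset.mem_union_right _ hbV
  rw [hD.add a (hs ha') b (hs hb') hab, h0 a ha', h0 b hb', add_zero]

theorem van_mul {K : IntermediateField ℚ ℂ} {S : Set ℂ} {a b : ℂ} (ha : Van K S a)
    (hb : Van K S b) : Van K S (a * b) := by
  classical
  obtain ⟨U, haU, hU⟩ := ha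
  obtain ⟨V, hbV, hV⟩ := hb
  refine ⟨insert (a * b) (U ∪ V), Finset.mem_insert_self _ _, (hU.union hV).insert _ ?_⟩
  intro R D hR hD hs hab h0 _
  have ha' : a ∈ U ∪ V := Finset.mem_union_left _ haU
  have hb' : b ∈ U ∪ V := Finset.mem_union_right _ hbV
  rw [hD.mul a (hs ha') b (hs hb'), h0 a ha', h0 b hb']
  ring

theorem van_inv {K : IntermediateField ℚ ℂ} {S : Set ℂ} {a : ℂ} (ha : Van K S a) :
    Van K S a⁻¹ := by
  classical
  by_cases h0 : a = 0
  · subst h0; rw [inv_zero]; exact van_const (zero_mem K)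
  obtain ⟨U, haU, hU⟩ := ha
  refine ⟨insert a⁻¹ U, Finset.mem_insert_self _ _, hU.insert _ ?_⟩
  intro R D hR hD hs hai h1 _
  have h2 := hD.mul a (hs haU) a⁻¹ hai
  rw [mul_inv_cancel₀ h0, hD.const 1 (one_mem K), h1 a haU, mul_zero, add_zero] at h2
  exact (mul_eq_zero.mp h2.symm).resolve_left h0

theorem van_adjoin {K : IntermediateField ℚ ℂ} {S : Set ℂ} {a : ℂ}
    (ha : a ∈ IntermediateField.adjoin K S) : Van K S a := by
  refine IntermediateField.adjoin_induction K (p := fun x _ => Van K S x) ?_ ?_ ?_ ?_ ?_ ha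
  · intro x hx; exact van_gen hx
  · intro x; exact van_const x.2
  · intro x y _ _ hx hy; exact van_add hx hy
  · intro x _ hx; exact van_inv hx
  · intro x y _ _ hx hy; exact van_mul hx hy

/-- Values of polynomials with coefficients killed by `D`. -/
theorem van_poly {K : IntermediateField ℚ ℂ} {S : Set ℂ} (a : ℂ)
    (q : (IntermediateField.adjoin K S)[X]) :
    ∃ U : Finset ℂ, a ∈ U ∧ aeval a q ∈ U ∧
      ∀ (R : Set ℂ) (D : ℂ → ℂ), RC K R → PD K R D → ↑U ⊆ R → (∀ s ∈ S, D s = 0) →
        D (aeval a q) = aeval a (derivative q) * D a ∧ (D a = 0 → ∀ u ∈ U, D u = 0) := by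
  classical
  induction q using Polynomial.induction_on with
  | C c =>
    obtain ⟨U, hcU, hU⟩ := van_adjoin c.2
    refine ⟨insert a U, Finset.mem_insert_self _ _, ?_, ?_⟩
    · rw [aeval_C]; exact Finset.mem_insert_of_mem hcU
    · intro R D hR hD hs hS
      rw [Finset.coe_insert, Set.insert_subset_iff] at hs
      have h := hU R D hR hD hs.2 hS
      refine ⟨?_, ?_⟩
      · rw [aeval_C, derivative_C, map_zero, zero_mul]
        exact h _ hcU
      · intro ha u hu
        rcases Finset.mem_insert.mp hu with rfl | h'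
        · exact ha
        · exact h u h'
  | add p q hp hq =>
    obtain ⟨U, haU, hpU, hU⟩ := hp
    obtain ⟨V, _, hqV, hV⟩ := hq
    refine ⟨insert (aeval a (p + q)) (U ∪ V),
      Finset.mem_insert_of_mem (Finset.mem_union_left _ haU), Finset.mem_insert_self _ _, ?_⟩
    intro R D hR hD hs hS
    rw [Finset.coe_insert, Set.insert_subset_iff, Finset.coe_union, Set.union_subset_iff] at hs
    obtain ⟨hsa, hsU, hsV⟩ := hs
    obtain ⟨h1, h2⟩ := hU R D hR hD hsU hS
    obtain ⟨h3, h4⟩ := hV R D hR hD hsV hS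
    have hkey : D (aeval a (p + q)) = aeval a (derivative (p + q)) * D a := by
      rw [map_add] at hsa ⊢
      rw [hD.add _ (hsU hpU) _ (hsV hqV) hsa, h1, h3, derivative_add, map_add]
      ring
    refine ⟨hkey, ?_⟩
    intro ha u hu
    rcases Finset.mem_insert.mp hu with rfl | h'
    · rw [hkey, ha, mul_zero]
    · rcases Finset.mem_union.mp h' with h' | h'
      · exact h2 ha u h'
      · exact h4 ha u h'
  | monomial n c hn =>
    obtain ⟨U, haU, hpU, hU⟩ := hn
    refine ⟨insert (aeval a (C c * X ^ (n + 1))) U, Finset.mem_insert_of_mem haU,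
      Finset.mem_insert_self _ _, ?_⟩
    intro R D hR hD hs hS
    rw [Finset.coe_insert, Set.insert_subset_iff] at hs
    obtain ⟨h1, h2⟩ := hU R D hR hD hs.2 hS
    have hval : aeval a (C c * X ^ (n + 1)) = aeval a (C c * X ^ n) * a := by
      simp only [map_mul, aeval_C, map_pow, aeval_X]
      ring
    have hder : aeval a (derivative (C c * X ^ (n + 1))) =
        aeval a (derivative (C c * X ^ n)) * a + aeval a (C c * X ^ n) := by
      have : (C c * X ^ (n + 1) : (IntermediateField.adjoin K S)[X]) = (C c * X ^ n) * X := by ring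
      rw [this, derivative_mul (f := C c * X ^ n) (g := X), derivative_X, mul_one]
      simp only [map_add, map_mul, aeval_X]
    have hkey : D (aeval a (C c * X ^ (n + 1))) =
        aeval a (derivative (C c * X ^ (n + 1))) * D a := by
      rw [hval, hD.mul _ (hs.2 hpU) _ (hs.2 haU), h1, hder]
      ring
    refine ⟨hkey, ?_⟩
    intro ha u hu
    rcases Finset.mem_insert.mp hu with rfl | h'
    · rw [hkey, ha, mul_zero]
    · exact h2 ha u h'

theorem van_algebraic {K : IntermediateField ℚ ℂ} {S : Set ℂ} {a : ℂ}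
    (ha : IsAlgebraic (IntermediateField.adjoin K S) a) : Van K S a := by
  classical
  have hint : IsIntegral (IntermediateField.adjoin K S) a := ha.isIntegral
  obtain ⟨U, haU, _, hU⟩ := van_poly a (minpoly (IntermediateField.adjoin K S) a)
  refine ⟨U, haU, ?_⟩
  intro R D hR hD hs hS
  obtain ⟨h1, h2⟩ := hU R D hR hD hs hS
  refine h2 ?_
  rw [minpoly.aeval, hD.const 0 (zero_mem K)] at h1
  have hsep : (minpoly (IntermediateField.adjoin K S) a).Separable :=
    (minpoly.irreducible hint).separable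
  have hne : aeval a (derivative (minpoly (IntermediateField.adjoin K S) a)) ≠ 0 :=
    hsep.aeval_derivative_ne_zero (minpoly.aeval _ _)
  exact (mul_eq_zero.mp h1.symm).resolve_left hne

/-- A finite family of numbers algebraic over `K(S)` lies in a good finite set. -/
theorem exists_good {K : IntermediateField ℚ ℂ} {S : Set ℂ} {σ : Type} [Fintype σ] (p : σ → ℂ)
    (hp : ∀ i, IsAlgebraic (IntermediateField.adjoin K S) (p i)) :
    ∃ U : Finset ℂ, GoodU K S U ∧ ∀ i, p i ∈ U := by
  classical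
  choose U hU1 hU2 using fun i => van_algebraic (hp i)
  refine ⟨Finset.univ.biUnion U, ?_, fun i => Finset.mem_biUnion.mpr ⟨i, Finset.mem_univ _, hU1 i⟩⟩
  intro R D hR hD hs hS u hu
  obtain ⟨i, _, hi⟩ := Finset.mem_biUnion.mp hu
  refine hU2 i R D hR hD (fun x hx => hs ?_) hS u hi
  exact Finset.mem_coe.mpr (Finset.mem_biUnion.mpr ⟨i, Finset.mem_univ _, hx⟩)

end Pool.Agent.MP_4aec10_nt
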