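import Pool.Agent.MP_4aec10_nt.Lin

set_option autoImplicit false

/-! Adding logarithms of finitely many numbers. -/

namespace Pool.Agent.MP_4aec10_nt

open Complex

variable {ι : Type} [Fintype ι]

/-- The elements of `J` are multiplicatively independent modulo `K^*` and the `e^{z_i}`. -/
def RelIndep (K : IntermediateField ℚ ℂ) (z : ι → ℂ) (J : Finset ℂ) : Prop :=
  ∀ a : ℂ → ℤ, (∃ c ∈ K, ∃ b : ι → ℤ, ∏ j ∈ J, j ^ a j = c * exp (lin b z)) → ∀ j ∈ J, a j = 0

theorem exists_maxJ (K : IntermediateField ℚ ℂ) (z : ι → ℂ) (U : Finset ℂ) :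
    ∃ J ⊆ U, RelIndep K z J ∧ ∀ J' ⊆ U, RelIndep K z J' → J'.card ≤ J.card := by
  classical
  have hne : (U.powerset.filter fun J => RelIndep K z J).Nonempty := by
    refine ⟨∅, Finset.mem_filter.mpr ⟨Finset.mem_powerset.mpr (Finset.empty_subset _), ?_⟩⟩
    intro a _ j hj
    exact absurd hj (Finset.notMem_empty j)
  obtain ⟨J, hJ, hmax⟩ := Finset.exists_max_image _ (fun J : Finset ℂ => J.card) hne
  rw [Finset.mem_filter, Finset.mem_powerset] at hJ
  refine ⟨J, hJ.1, hJ.2, fun J' h1 h2 => ?_⟩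
  exact hmax J' (Finset.mem_filter.mpr ⟨Finset.mem_powerset.mpr h1, h2⟩)

theorem exists_pow_mem {K : IntermediateField ℚ ℂ} {z : ι → ℂ} {U J : Finset ℂ} (hJU : J ⊆ U)
    (hJ : RelIndep K z J) (hmax : ∀ J' ⊆ U, RelIndep K z J' → J'.card ≤ J.card) {u : ℂ}
    (hu : u ∈ U) (hu0 : u ≠ 0) (h0 : ∀ j ∈ J, j ≠ 0) :
    ∃ n : ℕ, 0 < n ∧ ∃ c ∈ K, ∃ (b : ι → ℤ) (a : ℂ → ℤ),
      u ^ n = c * exp (lin b z) * ∏ j ∈ J, j ^ a j := by
  classical
  by_cases huJ : u ∈ J
  · refine ⟨1, one_pos, 1, one_mem K, 0, Pi.single u 1, ?_⟩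
    rw [lin_zero, exp_zero, Finset.prod_eq_single u]
    · simp
    · intro b _ hb
      rw [Pi.single_eq_of_ne hb, zpow_zero]
    · intro h
      exact absurd huJ h
  · have hnot : ¬ RelIndep K z (insert u J) := by
      intro h
      have := hmax (insert u J) (Finset.insert_subset hu hJU) h
      rw [Finset.card_insert_of_notMem huJ] at this
      omega
    rw [RelIndep] at hnot
    push Not at hnot
    obtain ⟨a, ⟨c, hc, b, hcb⟩, j, hj, haj⟩ := hnot
    rw [Finset.prod_insert huJ] at hcb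
    have hau : a u ≠ 0 := by
      intro hau
      rw [hau, zpow_zero, one_mul] at hcb
      have h2 := hJ a ⟨c, hc, b, hcb⟩
      rcases Finset.mem_insert.mp hj with rfl | hj'
      · exact haj hau
      · exact haj (h2 j hj')
    have hprod : ∏ j ∈ J, j ^ a j ≠ 0 :=
      Finset.prod_ne_zero_iff.mpr fun j hj => zpow_ne_zero _ (h0 j hj)
    have hinv : ∏ j ∈ J, j ^ (-a j) = (∏ j ∈ J, j ^ a j)⁻¹ := by
      rw [← Finset.prod_inv_distrib]
      exact Finset.prod_congr rfl fun j _ => by rw [zpow_neg]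
    have hexp : exp (lin b z) ≠ 0 := exp_ne_zero _
    have hc0 : c ≠ 0 := by
      rintro rfl
      rw [zero_mul] at hcb
      exact mul_ne_zero (zpow_ne_zero _ hu0) hprod hcb
    rcases lt_or_gt_of_ne hau with hneg | hpos
    · refine ⟨(-a u).toNat, by omega, c⁻¹, inv_mem hc, -b, a, ?_⟩
      have h1 : u ^ (-a u).toNat = (u ^ a u)⁻¹ := by
        rw [← zpow_natCast, Int.toNat_of_nonneg (by omega), zpow_neg]
      rw [h1, lin_neg, exp_neg, inv_eq_iff_eq_inv, mul_inv, mul_inv, inv_inv, inv_inv,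
        eq_mul_inv_iff_mul_eq₀ hprod]
      exact hcb
    · refine ⟨(a u).toNat, by omega, c, hc, b, fun j => -a j, ?_⟩
      have h1 : u ^ (a u).toNat = u ^ a u := by
        rw [← zpow_natCast, Int.toNat_of_nonneg (by omega)]
      rw [h1, hinv, eq_mul_inv_iff_mul_eq₀ hprod]
      exact hcb

theorem exists_tower {K : IntermediateField ℚ ℂ} (hK : ∀ x : ℂ, IsAlgebraic K x → x ∈ K)
    {z : ι → ℂ} (hz : Indep z) (U : Finset ℂ) (hU0 : ∀ u ∈ U, u ≠ 0) :
    ∃ (J : Finset ℂ) (N : ℕ) (y : ι ⊕ J → ℂ), J ⊆ U ∧ 0 < N ∧ (∀ i, z i = N * y (Sum.inl i)) ∧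
      (∀ j : J, exp (N * y (Sum.inr j)) = j) ∧ Indep y ∧
      ∀ u ∈ U, ∃ c ∈ K, ∃ l : ι ⊕ J → ℤ, u = c * exp (lin l y) := by
  classical
  obtain ⟨J, hJU, hJ, hmax⟩ := exists_maxJ K z U
  have h0 : ∀ j ∈ J, j ≠ 0 := fun j hj => hU0 j (hJU hj)
  -- common exponent
  have hpow : ∀ u : U, ∃ n : ℕ, 0 < n ∧ ∃ c ∈ K, ∃ (b : ι → ℤ) (a : ℂ → ℤ),
      (u : ℂ) ^ n = c * exp (lin b z) * ∏ j ∈ J, j ^ a j := fun u =>
    exists_pow_mem hJU hJ hmax u.2 (hU0 u u.2) h0
  choose n hn hn' using hpow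
  let N : ℕ := ∏ u : U, n u
  have hN : 0 < N := Finset.prod_pos fun u _ => hn u
  have hNC : (N : ℂ) ≠ 0 := Nat.cast_ne_zero.mpr hN.ne'
  -- logarithms
  have hlog : ∀ j : J, exp (log (j : ℂ)) = j := fun j => exp_log (h0 j j.2)
  let y : ι ⊕ J → ℂ := Sum.elim (fun i => z i / N) (fun j => log (j : ℂ) / N)
  have hyl : ∀ l : ι ⊕ J → ℤ, exp (lin l y) ^ N =
      exp (lin (fun i => l (Sum.inl i)) z) * ∏ j : J, (j : ℂ) ^ l (Sum.inr j) := by
    intro l
    rw [← exp_nat_mul]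
    have h1 : (N : ℂ) * lin l y = lin (fun i => l (Sum.inl i)) z +
        ∑ j : J, (l (Sum.inr j) : ℂ) * log (j : ℂ) := by
      rw [lin, lin, Fintype.sum_sum_type, mul_add, Finset.mul_sum, Finset.mul_sum]
      congr 1
      · refine Finset.sum_congr rfl fun i _ => ?_
        change (N : ℂ) * ((l (Sum.inl i) : ℂ) * (z i / N)) = _
        field_simp
      · refine Finset.sum_congr rfl fun j _ => ?_
        change (N : ℂ) * ((l (Sum.inr j) : ℂ) * (log (j : ℂ) / N)) = _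
        field_simp
    rw [h1, exp_add, exp_sum]
    congr 1
    refine Finset.prod_congr rfl fun j _ => ?_
    rw [exp_int_mul, hlog]
  have hprodJ : ∀ a : ℂ → ℤ, ∏ j : J, (j : ℂ) ^ a j = ∏ j ∈ J, j ^ a j := fun a =>
    Finset.prod_coe_sort J (fun j => j ^ a j)
  refine ⟨J, N, y, hJU, hN, ?_, ?_, ?_, ?_⟩
  · intro i
    change z i = N * (z i / N)
    field_simp
  · intro j
    change exp (N * (log (j : ℂ) / N)) = j
    rw [mul_div_cancel₀ _ hNC, hlog]
  · -- independence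
    intro l hl
    have h1 : IsAlgebraic ℚ (exp (lin l y) ^ N) := hl.pow N
    rw [hyl] at h1
    let a : ℂ → ℤ := fun j => if h : j ∈ J then l (Sum.inr ⟨j, h⟩) else 0
    have ha : ∀ j : J, a j = l (Sum.inr j) := fun j => by
      change (if h : (j : ℂ) ∈ J then l (Sum.inr ⟨j, h⟩) else 0) = _
      rw [dif_pos j.2]
    have hprod : ∏ j : J, (j : ℂ) ^ l (Sum.inr j) = ∏ j ∈ J, j ^ a j := by
      rw [← hprodJ]
      exact Finset.prod_congr rfl fun j _ => by rw [ha]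
    have hexp := exp_ne_zero (lin (fun i => l (Sum.inl i)) z)
    have hJ0 := hJ a ⟨exp (lin (fun i => l (Sum.inl i)) z) *
        ∏ j : J, (j : ℂ) ^ l (Sum.inr j), hK _ (h1.tower_top K), -(fun i => l (Sum.inl i)), by
      rw [← hprod, lin_neg, exp_neg]
      field_simp⟩
    have hinr : ∀ j : J, l (Sum.inr j) = 0 := fun j => by rw [← ha, hJ0 j j.2]
    have hone : ∏ j : J, (j : ℂ) ^ l (Sum.inr j) = 1 :=
      Finset.prod_eq_one fun j _ => by rw [hinr, zpow_zero]
    rw [hone, mul_one] at h1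
    have hinl := hz _ h1
    funext s
    rcases s with i | j
    · exact congrFun hinl i
    · exact hinr j
  · -- representability
    intro u hu
    obtain ⟨c, hc, b, a, hcb⟩ := hn' ⟨u, hu⟩
    obtain ⟨m, hm⟩ : n ⟨u, hu⟩ ∣ N := Finset.dvd_prod_of_mem _ (Finset.mem_univ _)
    let l : ι ⊕ J → ℤ := Sum.elim (fun i => (m : ℤ) * b i) (fun j => (m : ℤ) * a j)
    have h2 : u ^ N = c ^ m * exp (lin l y) ^ N := by
      rw [hyl, hm, pow_mul, hcb, mul_pow, mul_pow, mul_assoc, ← exp_nat_mul, ← Finset.prod_pow]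
      congr 2
      · congr 1
        change (m : ℂ) * lin b z = lin (fun i => (m : ℤ) * b i) z
        rw [lin, lin, Finset.mul_sum]
        refine Finset.sum_congr rfl fun i _ => ?_
        push_cast
        ring
      · rw [← Finset.prod_coe_sort J (fun j => (j ^ a j) ^ m)]
        refine Finset.prod_congr rfl fun j _ => ?_
        change ((j : ℂ) ^ a j) ^ m = (j : ℂ) ^ ((m : ℤ) * a j)
        rw [← zpow_natCast, ← zpow_mul, mul_comm]
    have hexp := exp_ne_zero (lin l y)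
    refine ⟨u / exp (lin l y), ?_, l, by field_simp⟩
    refine hK _ ?_
    have h3 : (u / exp (lin l y)) ^ N ∈ K := by
      rw [div_pow, h2, mul_div_assoc, div_self (pow_ne_zero _ hexp), mul_one]
      exact pow_mem hc m
    have h4 : IsAlgebraic K ((u / exp (lin l y)) ^ N) := isAlgebraic_algebraMap (⟨_, h3⟩ : K)
    exact h4.of_pow hN

end Pool.Agent.MP_4aec10_nt
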