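import Pool.Agent.MP_4aec10_nt.Easy
import Pool.Agent.MP_4aec10_nt.PD
import Pool.Agent.MP_4aec10_nt.Tower

set_option autoImplicit false

/-! The hard direction. -/

namespace Pool.Agent.MP_4aec10_nt

open Complex

variable {ι : Type} [Fintype ι]

/-- The tangent space cut out by all special functions vanishing at `(y, y)`. -/
def tan (K : IntermediateField ℚ ℂ) (y : ι → ℂ) : Submodule ℂ ((ι → ℂ) × (ι → ℂ)) where
  carrier := {v | ∀ f : (ι → ℂ) × (ι → ℂ) → ℂ, IsSpecial K f → f (y, y) = 0 →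
    fderiv ℂ f (y, y) v = 0}
  zero_mem' := fun f _ _ => map_zero _
  add_mem' := fun {a b} ha hb f hf h0 => by
    rw [map_add, ha f hf h0, hb f hf h0, add_zero]
  smul_mem' := fun c a ha f hf h0 => by
    rw [map_smul, ha f hf h0, smul_zero]

theorem mem_tan {K : IntermediateField ℚ ℂ} {y : ι → ℂ} {v : (ι → ℂ) × (ι → ℂ)} :
    v ∈ tan K y ↔ ∀ f : (ι → ℂ) × (ι → ℂ) → ℂ, IsSpecial K f → f (y, y) = 0 →
      fderiv ℂ f (y, y) v = 0 := Iff.rfl

/-- If the tangent space is small, there is a nondegenerate system. -/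
theorem exists_system {K : IntermediateField ℚ ℂ} {y : ι → ℂ}
    (h : Module.finrank ℂ (tan K y) + 1 ≤ Fintype.card ι) :
    ∃ f : Option ι → (ι → ℂ) × (ι → ℂ) → ℂ, (∀ j, IsSpecial K (f j)) ∧
      (∀ j, f j (y, y) = 0) ∧ LinearIndependent ℂ fun j => fderiv ℂ (f j) (y, y) := by
  classical
  let V := (ι → ℂ) × (ι → ℂ)
  let s : Set (Module.Dual ℂ V) := {φ | ∃ f : V → ℂ, IsSpecial K f ∧ f (y, y) = 0 ∧
    φ = ((fderiv ℂ f (y, y) : V →L[ℂ] ℂ) : V →ₗ[ℂ] ℂ)}
  obtain ⟨b, hbs, hbspan, hbli⟩ := exists_linearIndependent ℂ s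
  have hcoann : (Submodule.span ℂ b).dualCoannihilator = tan K y := by
    rw [hbspan]
    ext v
    rw [Submodule.mem_dualCoannihilator, mem_tan]
    constructor
    · intro hv f hf h0
      exact hv _ (Submodule.subset_span ⟨f, hf, h0, rfl⟩)
    · intro hv φ hφ
      refine Submodule.span_induction (p := fun w _ => w v = 0) ?_ ?_ ?_ ?_ hφ
      · rintro _ ⟨f, hf, h0, rfl⟩
        exact hv f hf h0
      · rfl
      · intro a b _ _ ha hb
        rw [LinearMap.add_apply, ha, hb, add_zero]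
      · intro c a _ ha
        rw [LinearMap.smul_apply, ha, smul_zero]
  have h1 := Subspace.finrank_add_finrank_dualCoannihilator_eq (Submodule.span ℂ b)
  rw [hcoann] at h1
  have hV : Module.finrank ℂ V = Fintype.card ι + Fintype.card ι := by
    change Module.finrank ℂ ((ι → ℂ) × (ι → ℂ)) = _
    rw [Module.finrank_prod, Module.finrank_fintype_fun_eq_card]
  have hbfin : b.Finite := hbli.setFinite
  have : Fintype b := hbfin.fintype
  have h2 : Module.finrank ℂ (Submodule.span ℂ b) = Fintype.card b := by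
    have := finrank_span_eq_card hbli
    rwa [Subtype.range_coe] at this
  have hcard : Fintype.card (Option ι) ≤ Fintype.card b := by
    rw [Fintype.card_option]
    have h3 : Module.finrank ℂ (Submodule.span ℂ b) + Module.finrank ℂ (tan K y) =
        Fintype.card ι + Fintype.card ι := h1.trans hV
    rw [h2] at h3
    omega
  obtain ⟨e⟩ := Function.Embedding.nonempty_of_card_le hcard
  choose f hf h0 heq using fun j : Option ι => hbs (e j).2
  refine ⟨f, hf, h0, ?_⟩
  have h3 : LinearIndependent ℂ (fun j : Option ι => ((e j : b) : Module.Dual ℂ V)) :=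
    hbli.comp e e.injective
  have h4 : (fun j : Option ι => ((e j : b) : Module.Dual ℂ V)) =
      (ContinuousLinearMap.coeLM ℂ) ∘ fun j => fderiv ℂ (f j) (y, y) := by
    funext j
    exact heq j
  rw [h4] at h3
  exact h3.of_comp

/-- Numbers of the form `c e^{l·y}`, and `0`. -/
def RR (K : IntermediateField ℚ ℂ) (y : ι → ℂ) : Set ℂ :=
  {a | a = 0 ∨ ∃ c ∈ K, ∃ l : ι → ℤ, a = c * exp (lin l y)}

theorem rc_RR (K : IntermediateField ℚ ℂ) (y : ι → ℂ) : RC K (RR K y) where
  const := fun c hc => Or.inr ⟨c, hc, 0, by rw [lin_zero, exp_zero, mul_one]⟩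
  mul := by
    rintro a (rfl | ⟨c, hc, l, rfl⟩) b (rfl | ⟨c', hc', l', rfl⟩)
    · left; ring
    · left; ring
    · left; ring
    · right
      refine ⟨c * c', mul_mem hc hc', l + l', ?_⟩
      rw [lin_add, exp_add]
      ring
  inv := by
    rintro a (rfl | ⟨c, hc, l, rfl⟩)
    · left; exact inv_zero
    · right
      refine ⟨c⁻¹, inv_mem hc, -l, ?_⟩
      rw [lin_neg, exp_neg, mul_inv]

/-- The linear form `l·v₂` only depends on the class of `e^{l·y}` modulo `K^*`. -/
theorem lin_eq_of_tan {K : IntermediateField ℚ ℂ} {y : ι → ℂ} {v : (ι → ℂ) × (ι → ℂ)}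
    (hv : v ∈ tan K y) {c c' : ℂ} {l l' : ι → ℤ} (hc : c ∈ K) (hc' : c' ∈ K) (h0 : c ≠ 0)
    (h : c * exp (lin l y) = c' * exp (lin l' y)) : lin l v.2 = lin l' v.2 := by
  have hc'0 : c' ≠ 0 := by
    rintro rfl
    rw [zero_mul] at h
    exact mul_ne_zero h0 (exp_ne_zero _) h
  have h1 : c / c' * exp (lin (l - l') y) = 1 := by
    rw [lin_sub, exp_sub, div_mul_div_comm, h, div_self]
    exact mul_ne_zero hc'0 (exp_ne_zero _)
  let f : (ι → ℂ) × (ι → ℂ) → ℂ := fun p =>
    (c / c') * exp (lin (l - l') p.2) + 0 * exp (lin (0 : ι → ℤ) p.2) - 1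
  have hf : ∀ p, f p = (c / c') * exp (lin (l - l') p.2) + 0 * exp (lin (0 : ι → ℤ) p.2) - 1 :=
    fun _ => rfl
  have h2 := hv f (Or.inr ⟨c / c', 0, l - l', 0, div_mem hc hc', zero_mem K, hf⟩)
    (by rw [hf]; rw [h1]; ring)
  rw [fderiv_kindB hf] at h2
  rw [h1, one_mul, zero_mul, zero_mul, add_zero, lin_sub] at h2
  exact sub_eq_zero.mp h2

open Classical in
/-- The partial derivation attached to a tangent vector. -/
noncomputable def DD (K : IntermediateField ℚ ℂ) (y : ι → ℂ) (v : (ι → ℂ) × (ι → ℂ)) (a : ℂ) : ℂ :=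
  if h : ∃ l : ι → ℤ, ∃ c ∈ K, a = c * exp (lin l y) then a * lin h.choose v.2 else 0

theorem DD_zero (K : IntermediateField ℚ ℂ) (y : ι → ℂ) (v : (ι → ℂ) × (ι → ℂ)) :
    DD K y v 0 = 0 := by
  rw [DD]
  split_ifs
  · rw [zero_mul]
  · rfl

theorem DD_eq {K : IntermediateField ℚ ℂ} {y : ι → ℂ} {v : (ι → ℂ) × (ι → ℂ)}
    (hv : v ∈ tan K y) {a c : ℂ} (hc : c ∈ K) {l : ι → ℤ} (ha : a = c * exp (lin l y)) :
    DD K y v a = a * lin l v.2 := by
  by_cases ha0 : a = 0
  · rw [ha0, DD_zero, zero_mul]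
  have h : ∃ l : ι → ℤ, ∃ c ∈ K, a = c * exp (lin l y) := ⟨l, c, hc, ha⟩
  rw [DD, dif_pos h]
  obtain ⟨c', hc', ha'⟩ := h.choose_spec
  congr 1
  refine lin_eq_of_tan hv hc' hc ?_ (ha'.symm.trans ha)
  rintro rfl
  rw [zero_mul] at ha'
  exact ha0 ha'

theorem pd_DD {K : IntermediateField ℚ ℂ} {y : ι → ℂ} {v : (ι → ℂ) × (ι → ℂ)}
    (hv : v ∈ tan K y) : PD K (RR K y) (DD K y v) where
  const := fun c hc => by
    rw [DD_eq hv hc (l := 0) (by rw [lin_zero, exp_zero, mul_one]), lin_zero, mul_zero]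
  mul := by
    rintro a (rfl | ⟨c, hc, l, ha⟩) b (rfl | ⟨c', hc', l', hb⟩)
    · rw [mul_zero, DD_zero]; ring
    · rw [zero_mul, DD_zero]; ring
    · rw [mul_zero, DD_zero]; ring
    · have hab : a * b = (c * c') * exp (lin (l + l') y) := by
        rw [ha, hb, lin_add, exp_add]; ring
      rw [DD_eq hv (mul_mem hc hc') hab, DD_eq hv hc ha, DD_eq hv hc' hb, lin_add]
      ring
  add := by
    rintro a (rfl | ⟨c, hc, l, ha⟩) b (rfl | ⟨c', hc', l', hb⟩) hab
    · rw [add_zero, DD_zero]; ring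
    · rw [zero_add, DD_zero]; ring
    · rw [add_zero, DD_zero]; ring
    · rcases hab with hab | ⟨c'', hc'', l'', hab⟩
      · -- a + b = 0
        have hb' : b = -a := by linear_combination hab
        have ha2 : -a = (-c) * exp (lin l y) := by rw [ha]; ring
        rw [hab, DD_zero, hb', DD_eq hv hc ha, DD_eq hv (neg_mem hc) ha2]
        ring
      · by_cases h0 : a + b = 0
        · have hb' : b = -a := by linear_combination h0
          have ha2 : -a = (-c) * exp (lin l y) := by rw [ha]; ring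
          rw [h0, DD_zero, hb', DD_eq hv hc ha, DD_eq hv (neg_mem hc) ha2]
          ring
        · rw [DD_eq hv hc'' hab, DD_eq hv hc ha, DD_eq hv hc' hb]
          have hc''0 : c'' ≠ 0 := by
            rintro rfl
            rw [zero_mul] at hab
            exact h0 hab
          let f : (ι → ℂ) × (ι → ℂ) → ℂ := fun p =>
            (c / c'') * exp (lin (l - l'') p.2) + (c' / c'') * exp (lin (l' - l'') p.2) - 1
          have hf : ∀ p, f p =
            (c / c'') * exp (lin (l - l'') p.2) + (c' / c'') * exp (lin (l' - l'') p.2) - 1 :=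
            fun _ => rfl
          have hA : c / c'' * exp (lin (l - l'') y) = a / (a + b) := by
            rw [lin_sub, exp_sub, div_mul_div_comm, ← ha, ← hab]
          have hB : c' / c'' * exp (lin (l' - l'') y) = b / (a + b) := by
            rw [lin_sub, exp_sub, div_mul_div_comm, ← hb, ← hab]
          have h2 := hv f (Or.inr ⟨c / c'', c' / c'', l - l'', l' - l'', div_mem hc hc'',
            div_mem hc' hc'', hf⟩) (by rw [hf]; rw [hA, hB]; field_simp; ring)
          rw [fderiv_kindB hf] at h2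
          rw [hA, hB, lin_sub, lin_sub] at h2
          field_simp at h2
          linear_combination -h2

theorem lin_zero_right (l : ι → ℤ) : lin l (0 : ι → ℂ) = 0 := by
  simp [lin]

/-- The tangent space at a suitable extension of `z` is small. -/
theorem small_tan {K : IntermediateField ℚ ℂ} (hK : ∀ x : ℂ, IsAlgebraic K x → x ∈ K)
    {z : ι → ℂ} (hz : Indep z) (S : Set ℂ)
    (hST : S ⊆ Set.range z ∪ Set.range fun i => exp (z i))
    (halg : ∀ t ∈ Set.range z ∪ Set.range fun i => exp (z i),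
      IsAlgebraic (IntermediateField.adjoin K S) t)
    (hcard : Cardinal.mk S < (Fintype.card ι : Cardinal)) :
    ∃ (κ : Type) (_ : Fintype κ) (y : κ → ℂ), Indep y ∧
      Module.finrank ℂ (tan K y) + 1 ≤ Fintype.card κ := by
  classical
  have hfin : S.Finite := ((Set.finite_range z).union (Set.finite_range _)).subset hST
  have : Fintype S := hfin.fintype
  rw [Cardinal.mk_fintype] at hcard
  have hcard' : Fintype.card S < Fintype.card ι := by exact_mod_cast hcard
  -- the good set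
  obtain ⟨U, hU, hpU⟩ := exists_good (K := K) (S := S) (Sum.elim z (fun i => exp (z i)))
    (fun i => by
      rcases i with i | i
      · exact halg _ (Or.inl ⟨i, rfl⟩)
      · exact halg _ (Or.inr ⟨i, rfl⟩))
  have hz0 : ∀ i, z i ≠ 0 := by
    intro i hi
    have h1 := hz (Pi.single i 1) (by rw [lin_single, hi, mul_zero, exp_zero]; exact isAlgebraic_one)
    have h2 := congrFun h1 i
    rw [Pi.single_eq_same] at h2
    exact one_ne_zero h2
  have hT0 : ∀ t ∈ Set.range z ∪ Set.range fun i => exp (z i), t ≠ 0 := by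
    rintro _ (⟨i, rfl⟩ | ⟨i, rfl⟩)
    · exact hz0 i
    · exact exp_ne_zero _
  have hTU : ∀ t ∈ Set.range z ∪ Set.range fun i => exp (z i), t ∈ U := by
    rintro _ (⟨i, rfl⟩ | ⟨i, rfl⟩)
    · exact hpU (Sum.inl i)
    · exact hpU (Sum.inr i)
  obtain ⟨J, N, y, hJU, hN, hzy, hJy, hy, hrep⟩ := exists_tower hK hz (U.erase 0)
    (fun u hu => Finset.ne_of_mem_erase hu)
  have hNC : (N : ℂ) ≠ 0 := Nat.cast_ne_zero.mpr hN.ne'
  refine ⟨ι ⊕ J, inferInstance, y, hy, ?_⟩
  have hUR : (U : Set ℂ) ⊆ RR K y := by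
    intro u hu
    by_cases hu0 : u = 0
    · exact Or.inl hu0
    · exact Or.inr (hrep u (Finset.mem_erase.mpr ⟨hu0, hu⟩))
  choose c hc l hl using fun s : S => hrep (s : ℂ)
    (Finset.mem_erase.mpr ⟨hT0 _ (hST s.2), hTU _ (hST s.2)⟩)
  let Ψ : tan K y →ₗ[ℂ] (S → ℂ) × (J → ℂ) :=
    { toFun := fun v => (fun s => (s : ℂ) * lin (l s) v.1.2, fun j => v.1.1 (Sum.inr j))
      map_add' := fun v w => by
        refine Prod.ext ?_ ?_
        · funext s
          change (s : ℂ) * lin (l s) (v.1.2 + w.1.2) = _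
          rw [lin_add_right, mul_add]
          rfl
        · funext j
          rfl
      map_smul' := fun a v => by
        refine Prod.ext ?_ ?_
        · funext s
          change (s : ℂ) * lin (l s) (a • v.1.2) = _
          rw [lin_smul_right]
          change _ = a * ((s : ℂ) * lin (l s) v.1.2)
          ring
        · funext j
          rfl }
  have hinj : Function.Injective Ψ := by
    rw [← LinearMap.ker_eq_bot, LinearMap.ker_eq_bot']
    rintro ⟨v, hv⟩ hΨ
    have hΨ1 : ∀ s : S, (s : ℂ) * lin (l s) v.2 = 0 := fun s =>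
      congrFun (congrArg Prod.fst hΨ) s
    have hΨ2 : ∀ j : J, v.1 (Sum.inr j) = 0 := fun j => congrFun (congrArg Prod.snd hΨ) j
    have hDU : ∀ u ∈ U, DD K y v u = 0 := by
      refine hU (RR K y) (DD K y v) (rc_RR K y) (pd_DD hv) hUR ?_
      intro s hs
      rw [DD_eq hv (hc ⟨s, hs⟩) (hl ⟨s, hs⟩)]
      exact hΨ1 ⟨s, hs⟩
    have hkey : ∀ (k : ι ⊕ J) (u : ℂ), u ∈ U → u = exp (N * y k) → v.2 k = 0 := by
      intro k u hu huk
      have h1 : u = 1 * exp (lin (Pi.single k (N : ℤ)) y) := by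
        rw [lin_single, one_mul, huk, Int.cast_natCast]
      have h2 := hDU u hu
      rw [DD_eq hv (one_mem K) h1, lin_single, Int.cast_natCast] at h2
      have h3 : u ≠ 0 := by rw [huk]; exact exp_ne_zero _
      exact (mul_eq_zero.mp ((mul_eq_zero.mp h2).resolve_left h3)).resolve_left hNC
    have hv2 : v.2 = 0 := by
      funext k
      rcases k with i | j
      · refine hkey (Sum.inl i) (exp (z i)) (hTU _ (Or.inr ⟨i, rfl⟩)) ?_
        rw [hzy]
      · refine hkey (Sum.inr j) (j : ℂ) (Finset.mem_of_mem_erase (hJU j.2)) ?_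
        rw [hJy]
    have hv1 : v.1 = 0 := by
      funext k
      rcases k with i | j
      · obtain ⟨c, hc, l, hl⟩ := hrep (z i) (Finset.mem_erase.mpr ⟨hz0 i, hTU _ (Or.inl ⟨i, rfl⟩)⟩)
        let f : (ι ⊕ J → ℂ) × (ι ⊕ J → ℂ) → ℂ := fun p =>
          p.1 (Sum.inl i) - (c / N) * exp (lin l p.2)
        have hf : ∀ p, f p = p.1 (Sum.inl i) - (c / N) * exp (lin l p.2) := fun _ => rfl
        have h1 := hv f (Or.inl ⟨Sum.inl i, c / N, l, div_mem hc (natCast_mem K N), hf⟩) (by
          rw [hf]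
          change y (Sum.inl i) - (c / N) * exp (lin l y) = 0
          have h2 : (c / N) * exp (lin l y) = z i / N := by rw [hl]; ring
          rw [h2, hzy i]
          field_simp
          ring)
        rw [fderiv_kindA hf, hv2, lin_zero_right, mul_zero, sub_zero] at h1
        exact h1
      · exact hΨ2 j
    exact Subtype.ext (Prod.ext hv1 hv2)
  have h1 := LinearMap.finrank_le_finrank_of_injective hinj
  rw [Module.finrank_prod, Module.finrank_fintype_fun_eq_card,
    Module.finrank_fintype_fun_eq_card] at h1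
  rw [Fintype.card_sum]
  omega

open scoped IntermediateField.algebraAdjoinAdjoin in
theorem alg_up {K : IntermediateField ℚ ℂ} {S : Set ℂ} {t : ℂ}
    (h : IsAlgebraic (Algebra.adjoin K S) t) : IsAlgebraic (IntermediateField.adjoin K S) t :=
  h.extendScalars (FaithfulSMul.algebraMap_injective _ _)

/-- The inequality for independent `z`. -/
theorem hard_indep {K : IntermediateField ℚ ℂ} (hK : ∀ x : ℂ, IsAlgebraic K x → x ∈ K)
    (hno : ∀ (κ : Type) [Fintype κ] (y : κ → ℂ), Indep y →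
      ∀ f : Option κ → (κ → ℂ) × (κ → ℂ) → ℂ, (∀ j, IsSpecial K (f j)) → (∀ j, f j (y, y) = 0) →
        ¬ LinearIndependent ℂ fun j => fderiv ℂ (f j) (y, y))
    {z : ι → ℂ} (hz : Indep z) :
    ∃ S : Set ℂ, S ⊆ (Set.range z ∪ Set.range fun i => exp (z i)) ∧
      AlgebraicIndependent K ((↑) : S → ℂ) ∧ (Fintype.card ι : Cardinal) ≤ Cardinal.mk S := by
  have hinj := FaithfulSMul.algebraMap_injective K ℂ
  obtain ⟨S, hS⟩ := (AlgebraicIndependent.matroid K ℂ).exists_isBasis
    (Set.range z ∪ Set.range fun i => exp (z i))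
  obtain ⟨hS1, hS2, hS3⟩ := AlgebraicIndependent.matroid_isBasis_iff.mp hS
  refine ⟨S, hS2, hS1, ?_⟩
  by_contra hlt
  rw [not_le] at hlt
  obtain ⟨κ, _, y, hy, hfr⟩ := small_tan hK hz S hS2 (fun t ht => alg_up (hS3 t ht)) hlt
  obtain ⟨f, hf, h0, hli⟩ := exists_system hfr
  exact hno κ y hy f hf h0 hli

end Pool.Agent.MP_4aec10_nt
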