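import Mathlib

set_option autoImplicit false

/-! Lindemann-Weierstrass, part 1: the analytic contradiction. -/

namespace Pool.Agent.MP_4aec10_nt

open Polynomial

theorem lw1_int (T : Finset ℂ) (c : ℂ → ℤ) (a : ℤ)
    (hint : ∀ k : ℕ, ∃ m : ℤ, (a : ℂ) ^ k * ∑ s ∈ T, (c s : ℂ) * s ^ k = m)
    (g : ℤ[X]) (M : ℕ) (hM : g.natDegree ≤ M) :
    ∃ m : ℤ, (a : ℂ) ^ M * ∑ s ∈ T, (c s : ℂ) * aeval s g = m := by
  choose m hm using hint
  refine ⟨∑ k ∈ Finset.range (M + 1), g.coeff k * a ^ (M - k) * m k, ?_⟩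
  have h1 : ∀ s : ℂ, aeval s g = ∑ k ∈ Finset.range (M + 1), (g.coeff k : ℂ) * s ^ k := by
    intro s
    rw [aeval_eq_sum_range' (lt_of_le_of_lt hM (Nat.lt_succ_self M))]
    exact Finset.sum_congr rfl fun k _ => by rw [zsmul_eq_mul]
  push_cast
  simp_rw [← hm, h1]
  rw [Finset.mul_sum]
  have h2 : ∀ s ∈ T, (a : ℂ) ^ M * ((c s : ℂ) * ∑ k ∈ Finset.range (M + 1), (g.coeff k : ℂ) * s ^ k)
      = ∑ k ∈ Finset.range (M + 1), (g.coeff k : ℂ) * (a : ℂ) ^ (M - k) *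
        ((a : ℂ) ^ k * ((c s : ℂ) * s ^ k)) := by
    intro s _
    rw [Finset.mul_sum, Finset.mul_sum]
    refine Finset.sum_congr rfl fun k hk => ?_
    have hk' : k ≤ M := Nat.lt_succ_iff.1 (Finset.mem_range.1 hk)
    have h3 : (a : ℂ) ^ M = (a : ℂ) ^ (M - k) * (a : ℂ) ^ k := by
      rw [← pow_add, Nat.sub_add_cancel hk']
    rw [h3]
    ring
  rw [Finset.sum_congr rfl h2, Finset.sum_comm]
  refine Finset.sum_congr rfl fun k _ => ?_
  rw [Finset.mul_sum, Finset.mul_sum]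

theorem lw1_lim (K : ℝ) (S : ℝ) : ∃ N : ℕ, ∀ p : ℕ, N ≤ p → S * (K ^ p / ((p - 1).factorial : ℝ)) < 1 := by
  have h1 := FloorSemiring.tendsto_pow_div_factorial_atTop K
  have h2 : Filter.Tendsto (fun n : ℕ => S * K * (K ^ n / (n.factorial : ℝ))) Filter.atTop (nhds 0) := by
    have := h1.const_mul (S * K)
    rwa [mul_zero] at this
  obtain ⟨N, hN⟩ := (h2.eventually (gt_mem_nhds (zero_lt_one : (0 : ℝ) < 1))).exists_forall_of_atTop
  refine ⟨N + 1, fun p hp => ?_⟩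
  obtain ⟨q, rfl⟩ : ∃ q, p = q + 1 := ⟨p - 1, by omega⟩
  have := hN q (by omega)
  rw [Nat.add_sub_cancel, pow_succ]
  calc S * (K ^ q * K / (q.factorial : ℝ)) = S * K * (K ^ q / (q.factorial : ℝ)) := by ring
    _ < 1 := this

theorem lw_analytic (T : Finset ℂ) (c : ℂ → ℤ) (w : ℤ) (hw : w ≠ 0) (f : ℤ[X])
    (hf0 : f.eval 0 ≠ 0) (hT : ∀ s ∈ T, aeval s f = 0) (a : ℤ) (ha : a ≠ 0)
    (hint : ∀ k : ℕ, ∃ m : ℤ, (a : ℂ) ^ k * ∑ s ∈ T, (c s : ℂ) * s ^ k = m) :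
    (w : ℂ) + ∑ s ∈ T, (c s : ℂ) * Complex.exp s ≠ 0 := by
  intro h0
  have hf : f ≠ 0 := by
    rintro rfl
    simp at hf0
  obtain ⟨C, hC⟩ := LindemannWeierstrass.exp_polynomial_approx f hf0
  set S : ℝ := ∑ s ∈ T, |(c s : ℝ)| with hS
  have hS0 : 0 ≤ S := Finset.sum_nonneg fun _ _ => abs_nonneg _
  obtain ⟨N, hN⟩ := lw1_lim (|(a : ℝ)| ^ f.natDegree * |C|) S
  obtain ⟨p, hpN, hp⟩ := Nat.exists_infinite_primes
    (N + (f.eval 0).natAbs + a.natAbs + w.natAbs + 1)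
  obtain ⟨n, hn, gp, hgp, happ⟩ := hC p (by omega) hp
  have hgp' : gp.natDegree ≤ p * f.natDegree := hgp.trans (Nat.sub_le _ _)
  obtain ⟨M, hM⟩ := lw1_int T c a hint gp (p * f.natDegree) hgp'
  have hroot : ∀ s ∈ T, ‖(n : ℂ) * Complex.exp s - (p : ℂ) * aeval s gp‖ ≤
      |C| ^ p / ((p - 1).factorial : ℝ) := by
    intro s hs
    have h1 : s ∈ f.aroots ℂ := by
      rw [mem_aroots]
      exact ⟨hf, hT s hs⟩
    have h2 := happ h1
    rw [zsmul_eq_mul, nsmul_eq_mul] at h2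
    refine h2.trans ?_
    apply div_le_div_of_nonneg_right _ (Nat.cast_nonneg _)
    calc C ^ p ≤ |C ^ p| := le_abs_self _
      _ = |C| ^ p := abs_pow C p
  -- the integer
  have hI : ((a ^ (p * f.natDegree) * n * w + p * M : ℤ) : ℂ) =
      -((a : ℂ) ^ (p * f.natDegree) *
        ∑ s ∈ T, (c s : ℂ) * ((n : ℂ) * Complex.exp s - (p : ℂ) * aeval s gp)) := by
    have h1 : (w : ℂ) = -∑ s ∈ T, (c s : ℂ) * Complex.exp s := by linear_combination h0
    push_cast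
    rw [← hM, h1]
    have h2 : ∑ s ∈ T, (c s : ℂ) * ((n : ℂ) * Complex.exp s - (p : ℂ) * aeval s gp) =
        (n : ℂ) * ∑ s ∈ T, (c s : ℂ) * Complex.exp s - (p : ℂ) * ∑ s ∈ T, (c s : ℂ) * aeval s gp := by
      rw [Finset.mul_sum, Finset.mul_sum, ← Finset.sum_sub_distrib]
      exact Finset.sum_congr rfl fun s _ => by ring
    rw [h2]
    ring
  have hne : a ^ (p * f.natDegree) * n * w + p * M ≠ 0 := by
    intro h1
    have hpp : Prime (p : ℤ) := Nat.prime_iff_prime_int.1 hp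
    have h2 : (p : ℤ) ∣ a ^ (p * f.natDegree) * n * w := ⟨-M, by linear_combination h1⟩
    rcases hpp.dvd_or_dvd h2 with h3 | h3
    · rcases hpp.dvd_or_dvd h3 with h4 | h4
      · have h5 := hpp.dvd_of_dvd_pow h4
        have h6 := Int.natAbs_dvd_natAbs.2 h5
        rw [Int.natAbs_natCast] at h6
        have h7 := Nat.le_of_dvd (Int.natAbs_pos.2 ha) h6
        omega
      · exact hn h4
    · have h6 := Int.natAbs_dvd_natAbs.2 h3
      rw [Int.natAbs_natCast] at h6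
      have h7 := Nat.le_of_dvd (Int.natAbs_pos.2 hw) h6
      omega
  have h1 : (1 : ℝ) ≤ ‖((a ^ (p * f.natDegree) * n * w + p * M : ℤ) : ℂ)‖ := by
    rw [Complex.norm_intCast]
    exact_mod_cast Int.one_le_abs hne
  rw [hI, norm_neg, norm_mul, norm_pow, Complex.norm_intCast] at h1
  have h2 : ‖∑ s ∈ T, (c s : ℂ) * ((n : ℂ) * Complex.exp s - (p : ℂ) * aeval s gp)‖ ≤
      S * (|C| ^ p / ((p - 1).factorial : ℝ)) := by
    refine (norm_sum_le _ _).trans ?_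
    rw [hS, Finset.sum_mul]
    refine Finset.sum_le_sum fun s hs => ?_
    rw [norm_mul, Complex.norm_intCast]
    exact mul_le_mul_of_nonneg_left (hroot s hs) (abs_nonneg _)
  have h3 := hN p (by omega)
  have h4 : |(a : ℝ)| ^ (p * f.natDegree) *
      ‖∑ s ∈ T, (c s : ℂ) * ((n : ℂ) * Complex.exp s - (p : ℂ) * aeval s gp)‖ ≤
      |(a : ℝ)| ^ (p * f.natDegree) * (S * (|C| ^ p / ((p - 1).factorial : ℝ))) :=
    mul_le_mul_of_nonneg_left h2 (by positivity)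
  have h5 : |(a : ℝ)| ^ (p * f.natDegree) * (S * (|C| ^ p / ((p - 1).factorial : ℝ))) =
      S * ((|(a : ℝ)| ^ f.natDegree * |C|) ^ p / ((p - 1).factorial : ℝ)) := by
    rw [mul_pow, ← pow_mul, mul_comm f.natDegree p]
    ring
  linarith

end Pool.Agent.MP_4aec10_nt
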