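import Pool.Agent.MP_4aec10_nt.LW9

set_option autoImplicit false

/-! The case of `𝔾_m`: real and purely imaginary points suffice. -/

namespace Pool.Agent.MP_4aec10_nt

open Complex Module

theorem ineq_one (r : ℂ) : Ineq (fun _ : Unit => r) ↔
    (r ∈ FF → exp r ∈ FF → IsAlgebraic ℚ (exp r)) := by
  classical
  set L := IntermediateField.adjoin FF (Set.range (fun _ : Unit => r) ∪
    Set.range fun i : Unit => exp ((fun _ : Unit => r) i)) with hL
  constructor
  · intro h h1 h2
    have hbot : L = ⊥ := by
      rw [hL, IntermediateField.adjoin_eq_bot_iff]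
      rintro x (⟨_, rfl⟩ | ⟨_, rfl⟩)
      · exact IntermediateField.mem_bot.2 ⟨⟨r, h1⟩, rfl⟩
      · exact IntermediateField.mem_bot.2 ⟨⟨exp r, h2⟩, rfl⟩
    have htr : Algebra.trdeg FF L = 0 := by
      rw [hbot]
      exact trdeg_eq_zero
    have h3 : ((dd fun i : Unit => exp ((fun _ : Unit => r) i) : ℕ) : Cardinal) ≤
      Algebra.trdeg FF L := h
    rw [htr] at h3
    have h4 : dd (fun i : Unit => exp ((fun _ : Unit => r) i)) = 0 := by
      have : ((dd fun i : Unit => exp ((fun _ : Unit => r) i) : ℕ) : Cardinal) = 0 :=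
        le_antisymm h3 zero_le
      exact_mod_cast this
    have h5 : ¬ Indep (fun _ : Unit => r) := by
      intro hI
      have := card_le_dd hI
      rw [h4, Fintype.card_unit] at this
      omega
    unfold Indep at h5
    push Not at h5
    obtain ⟨a, ha, ha0⟩ := h5
    have ha1 : a () ≠ 0 := fun h0 => ha0 (funext fun _ => h0)
    rw [exp_lin, Fintype.prod_unique] at ha
    have ha2 : IsAlgebraic ℚ (exp r ^ a ()) := ha
    rcases (a ()).eq_nat_or_neg with ⟨m, hm | hm⟩
    · rw [hm, zpow_natCast] at ha2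
      exact IsAlgebraic.of_pow (by omega) ha2
    · rw [hm, zpow_neg, zpow_natCast] at ha2
      exact IsAlgebraic.of_pow (n := m) (by omega) (by
        rw [← inv_inv (exp r ^ m)]
        exact ha2.inv)
  · intro h
    by_cases h1 : r ∈ FF ∧ exp r ∈ FF
    · have h2 := h h1.1 h1.2
      have h3 : dd (fun i : Unit => exp ((fun _ : Unit => r) i)) ≤ (∅ : Finset Unit).card := by
        apply dd_le
        intro i _
        refine ⟨1, fun _ => 1, one_pos, rfl, fun k hk => absurd rfl hk, ?_⟩
        rw [exp_lin, Fintype.prod_unique, zpow_one]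
        exact h2
      have h4 : dd (fun i : Unit => exp ((fun _ : Unit => r) i)) = 0 := by
        rw [Finset.card_empty] at h3
        omega
      show ((dd fun i : Unit => exp ((fun _ : Unit => r) i) : ℕ) : Cardinal) ≤ _
      rw [h4, Nat.cast_zero]
      exact zero_le
    · have h3 : dd (fun i : Unit => exp ((fun _ : Unit => r) i)) ≤
          (Finset.univ : Finset Unit).card := by
        apply dd_le
        intro i hi
        exact absurd (Finset.mem_univ i) hi
      have h3' : dd (fun i : Unit => exp ((fun _ : Unit => r) i)) ≤ 1 := h3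
      have h4 : ∃ x ∈ L, Transcendental FF x := by
        by_cases h5 : r ∈ FF
        · refine ⟨exp r, IntermediateField.subset_adjoin FF _ (Or.inr ⟨(), rfl⟩), ?_⟩
          intro h6
          exact h1 ⟨h5, FF_closed _ h6⟩
        · refine ⟨r, IntermediateField.subset_adjoin FF _ (Or.inl ⟨(), rfl⟩), ?_⟩
          intro h6
          exact h5 (FF_closed _ h6)
      obtain ⟨x, hx, hxt⟩ := h4
      have h5 : AlgebraicIndependent FF fun _ : Unit => (⟨x, hx⟩ : L) :=
        AlgebraicIndependent.of_comp L.val (algebraicIndependent_unique_type_iff.2 hxt)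
      have h6 := h5.cardinalMk_le_trdeg
      rw [Cardinal.mk_fintype, Fintype.card_unit] at h6
      show ((dd fun i : Unit => exp ((fun _ : Unit => r) i) : ℕ) : Cardinal) ≤ _
      exact le_trans (by exact_mod_cast h3') h6

/-- Q1 for `𝔾_m` is reduced to real and purely imaginary points. -/
theorem real_imag (h : ∀ r : ℂ, ((starRingEnd ℂ) r = r ∨ (starRingEnd ℂ) r = -r) →
    Ineq (fun _ : Unit => r)) (r : ℂ) : Ineq (fun _ : Unit => r) := by
  rw [ineq_one]
  intro h1 h2
  have h3 := FF_conj _ h1
  have h4 := FF_conj _ h2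
  have e1 : exp (r + (starRingEnd ℂ) r) = exp r * (starRingEnd ℂ) (exp r) := by
    rw [exp_add, Complex.exp_conj]
  have e2 : exp (r - (starRingEnd ℂ) r) = exp r / (starRingEnd ℂ) (exp r) := by
    rw [exp_sub, Complex.exp_conj]
  have h5 : IsAlgebraic ℚ (exp (r + (starRingEnd ℂ) r)) := by
    apply (ineq_one _).1 (h _ (Or.inl _))
    · exact add_mem h1 h3
    · rw [e1]
      exact mul_mem h2 h4
    · rw [map_add, Complex.conj_conj, add_comm]
  have h6 : IsAlgebraic ℚ (exp (r - (starRingEnd ℂ) r)) := by
    apply (ineq_one _).1 (h _ (Or.inr _))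
    · exact sub_mem h1 h3
    · rw [e2]
      exact div_mem h2 h4
    · rw [map_sub, Complex.conj_conj, neg_sub]
  have h7 : exp r ^ 2 = exp (r + (starRingEnd ℂ) r) * exp (r - (starRingEnd ℂ) r) := by
    rw [← exp_add, ← exp_nat_mul]
    congr 1
    push_cast
    ring
  refine IsAlgebraic.of_pow (n := 2) (by norm_num) ?_
  rw [h7]
  exact h5.mul h6

end Pool.Agent.MP_4aec10_nt
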