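import Pool.Agent.MP_4aec10_nt.LW1

set_option autoImplicit false

/-! Lindemann-Weierstrass, part 2: Galois invariant sums. -/

namespace Pool.Agent.MP_4aec10_nt

open Polynomial

section
variable {K : Type} [Field K] [Algebra ℚ K] [FiniteDimensional ℚ K]

theorem lw2_poly (s : K) (hs : s ≠ 0) : ∃ f : ℤ[X], f.eval 0 ≠ 0 ∧ aeval s f = 0 := by
  have h1 : IsAlgebraic ℤ s := (IsFractionRing.isAlgebraic_iff ℤ ℚ K).2 (Algebra.IsAlgebraic.isAlgebraic s)
  obtain ⟨f, hf, h2⟩ := h1.exists_nonzero_coeff_and_aeval_eq_zero (mem_nonZeroDivisors_of_ne_zero hs)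
  refine ⟨f, ?_, h2⟩
  rwa [← coeff_zero_eq_eval_zero]

theorem lw2_den (s : K) : ∃ a : ℤ, a ≠ 0 ∧ IsIntegral ℤ ((a : K) * s) := by
  have h1 : IsAlgebraic ℤ s := (IsFractionRing.isAlgebraic_iff ℤ ℚ K).2 (Algebra.IsAlgebraic.isAlgebraic s)
  obtain ⟨a, ha, h2⟩ := h1.exists_integral_multiple
  refine ⟨a, ha, ?_⟩
  rwa [zsmul_eq_mul] at h2

theorem lw2_fixed [IsGalois ℚ K] (x : K) (hx : IsIntegral ℤ x) (hfix : ∀ σ : K ≃ₐ[ℚ] K, σ x = x) :
    ∃ m : ℤ, x = (m : K) := by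
  obtain ⟨q, hq⟩ := (IsGalois.mem_range_algebraMap_iff_fixed x).2 hfix
  have h1 : IsIntegral ℤ q := by
    rw [← hq] at hx
    exact (isIntegral_algebraMap_iff (algebraMap ℚ K).injective).1 hx
  obtain ⟨m, hm⟩ := IsIntegrallyClosed.isIntegral_iff.1 h1
  refine ⟨m, ?_⟩
  rw [← hq, ← hm]
  simp

theorem lw_field [IsGalois ℚ K] (φ : K →+* ℂ) (T : Finset K) (h0 : (0 : K) ∉ T) (c : K → ℤ)
    (hT : ∀ (σ : K ≃ₐ[ℚ] K), ∀ s ∈ T, σ s ∈ T) (hc : ∀ (σ : K ≃ₐ[ℚ] K) (s : K), c (σ s) = c s)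
    (w : ℤ) (hw : w ≠ 0) :
    (w : ℂ) + ∑ s ∈ T, (c s : ℂ) * Complex.exp (φ s) ≠ 0 := by
  classical
  choose! F hF1 hF2 using fun (s : K) (hs : s ≠ 0) => lw2_poly s hs
  choose A hA1 hA2 using fun s : K => lw2_den s
  have hne : ∀ s ∈ T, s ≠ 0 := fun s hs h => h0 (h ▸ hs)
  set f : ℤ[X] := ∏ s ∈ T, F s with hf
  set a : ℤ := ∏ s ∈ T, A s with ha
  have hf0 : f.eval 0 ≠ 0 := by
    rw [hf, eval_prod]
    exact Finset.prod_ne_zero_iff.2 fun s hs => hF1 s (hne s hs)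
  have ha0 : a ≠ 0 := Finset.prod_ne_zero_iff.2 fun s _ => hA1 s
  have hfs : ∀ s ∈ T, aeval s f = 0 := by
    intro s hs
    rw [hf, map_prod]
    exact Finset.prod_eq_zero hs (hF2 s (hne s hs))
  have has : ∀ s ∈ T, IsIntegral ℤ ((a : K) * s) := by
    intro s hs
    have h1 : (a : K) * s = ((∏ t ∈ T.erase s, A t : ℤ) : K) * ((A s : K) * s) := by
      rw [ha, ← Finset.mul_prod_erase T A hs]
      push_cast
      ring
    rw [h1]
    exact (isIntegral_algebraMap (R := ℤ) (A := K) (x := ∏ t ∈ T.erase s, A t)).mul (hA2 s)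
  have hint : ∀ k : ℕ, ∃ m : ℤ, (a : K) ^ k * ∑ s ∈ T, (c s : K) * s ^ k = m := by
    intro k
    apply lw2_fixed
    · rw [Finset.mul_sum]
      refine IsIntegral.sum _ fun s hs => ?_
      have h1 : (a : K) ^ k * ((c s : K) * s ^ k) = (c s : K) * ((a : K) * s) ^ k := by
        rw [mul_pow]
        ring
      rw [h1]
      exact (isIntegral_algebraMap (R := ℤ) (A := K) (x := c s)).mul ((has s hs).pow k)
    · intro σ
      rw [map_mul, map_pow, map_intCast, map_sum]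
      congr 1
      refine Finset.sum_bij' (fun s _ => σ s) (fun s _ => σ.symm s) (fun s hs => hT σ s hs)
        (fun s hs => hT σ.symm s hs) (fun s _ => σ.symm_apply_apply s)
        (fun s _ => σ.apply_symm_apply s) fun s _ => ?_
      rw [map_mul, map_pow, map_intCast, hc]
  have hinv := Function.leftInverse_invFun φ.injective
  have hsum : ∀ g : ℂ → ℂ, ∑ z ∈ T.image φ, ((fun z => c (Function.invFun φ z)) z : ℂ) * g z =
      ∑ s ∈ T, (c s : ℂ) * g (φ s) := by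
    intro g
    rw [Finset.sum_image fun x _ y _ h => φ.injective h]
    refine Finset.sum_congr rfl fun s _ => ?_
    show ((c (Function.invFun φ (φ s)) : ℤ) : ℂ) * g (φ s) = _
    rw [hinv s]
  have key := lw_analytic (T.image φ) (fun z => c (Function.invFun φ z)) w hw f hf0 ?_ a ha0 ?_
  · rw [hsum Complex.exp] at key
    exact key
  · intro z hz
    obtain ⟨s, hs, rfl⟩ := Finset.mem_image.1 hz
    have h1 : aeval (φ s) f = φ (aeval s f) := by
      rw [aeval_def, aeval_def, hom_eval₂]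
      congr 1
      exact RingHom.ext_int _ _
    rw [h1, hfs s hs, map_zero]
  · intro k
    obtain ⟨m, hm⟩ := hint k
    refine ⟨m, ?_⟩
    rw [hsum fun z => z ^ k]
    have h2 := congrArg φ hm
    rw [map_mul, map_pow, map_intCast, map_sum, map_intCast] at h2
    rw [← h2]
    congr 1
    exact Finset.sum_congr rfl fun s _ => by rw [map_mul, map_pow, map_intCast]

end

end Pool.Agent.MP_4aec10_nt
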