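import Pool.Agent.MP_4aec10_nt.LW2

set_option autoImplicit false

/-! Lindemann-Weierstrass, part 3: the group algebra of the additive group of a Galois number field. -/

namespace Pool.Agent.MP_4aec10_nt

open AddMonoidAlgebra

section
variable {K : Type} [Field K] [Algebra ℚ K]

/-- evaluation of `∑ b_s [s]` at the exponential: `∑ φ(b_s) e^{φ(s)}` -/
noncomputable def lwEv (φ : K →+* ℂ) : AddMonoidAlgebra K K →+* ℂ :=
  liftNCRingHom φ (Complex.expMonoidHom.comp (AddMonoidHom.toMultiplicative φ.toAddMonoidHom))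
    (fun _ _ => Commute.all _ _)

theorem lwEv_single (φ : K →+* ℂ) (s b : K) : lwEv φ (single s b) = φ b * Complex.exp (φ s) := by
  unfold lwEv
  rw [liftNCRingHom_single]
  rfl

theorem lwEv_eq (φ : K →+* ℂ) (F : AddMonoidAlgebra K K) :
    lwEv φ F = ∑ s ∈ F.coeff.support, φ (F.coeff s) * Complex.exp (φ s) := by
  conv_lhs => rw [← sum_coeff_single F]
  rw [Finsupp.sum, map_sum]
  exact Finset.sum_congr rfl fun s _ => lwEv_single φ s _

/-- the action on coefficients and exponents -/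
noncomputable def lwAct (σ τ : K ≃ₐ[ℚ] K) : AddMonoidAlgebra K K →+* AddMonoidAlgebra K K :=
  (mapRingHom K (σ : K →+* K)).comp (mapDomainRingEquiv K (τ : K ≃+ K)).toRingHom

theorem lwAct_coeff (σ τ : K ≃ₐ[ℚ] K) (F : AddMonoidAlgebra K K) (s : K) :
    (lwAct σ τ F).coeff s = σ (F.coeff (τ.symm s)) := by
  show (mapRingHom K (σ : K →+* K) (mapDomainRingEquiv K (τ : K ≃+ K) F)).coeff s = _
  rw [coeff_mapRingHom, coeff_mapDomainRingEquiv]
  rfl

theorem lwAct_single (σ τ : K ≃ₐ[ℚ] K) (s b : K) :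
    lwAct σ τ (single s b) = single (τ s) (σ b) := by
  show mapRingHom K (σ : K →+* K) (mapDomainRingEquiv K (τ : K ≃+ K) (single s b)) = _
  rw [mapDomainRingEquiv_single, mapRingHom_single]
  rfl

theorem lwAct_mul (σ τ σ' τ' : K ≃ₐ[ℚ] K) (F : AddMonoidAlgebra K K) :
    lwAct σ τ (lwAct σ' τ' F) = lwAct (σ * σ') (τ * τ') F := by
  ext s
  rw [lwAct_coeff, lwAct_coeff, lwAct_coeff]
  rfl

theorem lwAct_one (F : AddMonoidAlgebra K K) : lwAct 1 1 F = F := by
  ext s
  rw [lwAct_coeff]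
  rfl

theorem lwAct_ne (σ τ : K ≃ₐ[ℚ] K) {F : AddMonoidAlgebra K K} (hF : F ≠ 0) : lwAct σ τ F ≠ 0 := by
  intro h
  apply hF
  ext s
  have h1 : (lwAct σ τ F).coeff (τ s) = 0 := by rw [h]; rfl
  rw [lwAct_coeff, AlgEquiv.symm_apply_apply, map_eq_zero_iff σ σ.injective] at h1
  exact h1

variable [FiniteDimensional ℚ K]

theorem lw3_sym (φ : K →+* ℂ) (F : AddMonoidAlgebra K K) (hF : F ≠ 0) (h0 : lwEv φ F = 0) :
    ∃ F' : AddMonoidAlgebra K K, F' ≠ 0 ∧ lwEv φ F' = 0 ∧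
      ∀ σ τ : K ≃ₐ[ℚ] K, lwAct σ τ F' = F' := by
  classical
  haveI : NoZeroDivisors (AddMonoidAlgebra K K) := inferInstance
  refine ⟨∏ x : (K ≃ₐ[ℚ] K) × (K ≃ₐ[ℚ] K), lwAct x.1 x.2 F, ?_, ?_, ?_⟩
  · exact Finset.prod_ne_zero_iff.2 fun x _ => lwAct_ne x.1 x.2 hF
  · rw [map_prod]
    refine Finset.prod_eq_zero (Finset.mem_univ (1, 1)) ?_
    rw [lwAct_one]
    exact h0
  · intro σ τ
    rw [map_prod]
    exact Fintype.prod_equiv ((Equiv.mulLeft σ).prodCongr (Equiv.mulLeft τ)) _ _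
      fun x => lwAct_mul σ τ x.1 x.2 F

theorem lw3_const (φ : K →+* ℂ) (F : AddMonoidAlgebra K K) (hF : F ≠ 0) (h0 : lwEv φ F = 0)
    (hinv : ∀ σ τ : K ≃ₐ[ℚ] K, lwAct σ τ F = F) :
    ∃ F' : AddMonoidAlgebra K K, F'.coeff 0 ≠ 0 ∧ lwEv φ F' = 0 ∧
      ∀ σ τ : K ≃ₐ[ℚ] K, lwAct σ τ F' = F' := by
  classical
  obtain ⟨s, hs⟩ : ∃ s, F.coeff s ≠ 0 := by
    by_contra h
    push Not at h
    apply hF
    ext s
    exact h s
  set E : AddMonoidAlgebra K K := ∑ τ : K ≃ₐ[ℚ] K, single (-(τ s)) (1 : K) with hE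
  refine ⟨E * F, ?_, ?_, ?_⟩
  · have h1 : (E * F).coeff 0 = ∑ τ : K ≃ₐ[ℚ] K, F.coeff (τ s) := by
      rw [hE, Finset.sum_mul, coeff_sum, Finsupp.finset_sum_apply]
      refine Finset.sum_congr rfl fun τ _ => ?_
      rw [coeff_single_mul_apply, one_mul, neg_neg, add_zero]
    have h2 : ∀ τ : K ≃ₐ[ℚ] K, F.coeff (τ s) = F.coeff s := by
      intro τ
      have h3 := congrArg (fun G : AddMonoidAlgebra K K => G.coeff (τ s)) (hinv 1 τ)
      simp only [lwAct_coeff, AlgEquiv.symm_apply_apply] at h3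
      exact h3.symm
    rw [h1, Finset.sum_congr rfl fun τ _ => h2 τ, Finset.sum_const, nsmul_eq_mul]
    refine mul_ne_zero ?_ hs
    haveI : CharZero K := algebraRat.charZero K
    exact Nat.cast_ne_zero.2 (Finset.card_ne_zero_of_mem (Finset.mem_univ 1))
  · rw [map_mul, h0, mul_zero]
  · intro σ τ
    rw [map_mul, hinv σ τ]
    congr 1
    rw [hE, map_sum]
    refine Fintype.sum_equiv (Equiv.mulLeft τ) _ _ fun x => ?_
    rw [lwAct_single, map_neg, map_one]
    rfl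

theorem lw_group [IsGalois ℚ K] (φ : K →+* ℂ) (F : AddMonoidAlgebra K K) (hF : F ≠ 0) :
    lwEv φ F ≠ 0 := by
  classical
  intro h0
  obtain ⟨F₁, hF₁, h1, hinv₁⟩ := lw3_sym φ F hF h0
  obtain ⟨G, hG, h2, hinv⟩ := lw3_const φ F₁ hF₁ h1 hinv₁
  have hfix : ∀ (σ : K ≃ₐ[ℚ] K) (s : K), σ (G.coeff s) = G.coeff s := by
    intro σ s
    have h3 := congrArg (fun G : AddMonoidAlgebra K K => G.coeff s) (hinv σ 1)
    simp only [lwAct_coeff] at h3
    exact h3
  have hperm : ∀ (σ : K ≃ₐ[ℚ] K) (s : K), G.coeff (σ s) = G.coeff s := by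
    intro σ s
    have h3 := congrArg (fun G : AddMonoidAlgebra K K => G.coeff (σ s)) (hinv 1 σ)
    simp only [lwAct_coeff, AlgEquiv.symm_apply_apply] at h3
    exact h3.symm
  have hq : ∀ s : K, ∃ q : ℚ, algebraMap ℚ K q = G.coeff s := fun s =>
    (IsGalois.mem_range_algebraMap_iff_fixed _).2 fun σ => hfix σ s
  choose q hq using hq
  set m : ℤ := ∏ s ∈ G.coeff.support, ((q s).den : ℤ) with hm
  have hm0 : m ≠ 0 := Finset.prod_ne_zero_iff.2 fun s _ => by exact_mod_cast (q s).den_nz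
  have hc : ∀ s : K, ∃ c : ℤ, (c : ℚ) = m * q s := by
    intro s
    by_cases hs : s ∈ G.coeff.support
    · refine ⟨(∏ t ∈ G.coeff.support.erase s, ((q t).den : ℤ)) * (q s).num, ?_⟩
      rw [hm, ← Finset.mul_prod_erase _ _ hs]
      push_cast
      have h3 : (q s) * ((q s).den : ℚ) = (q s).num := Rat.mul_den_eq_num _
      rw [← h3]
      ring
    · refine ⟨0, ?_⟩
      have h3 : q s = 0 := by
        apply (algebraMap ℚ K).injective
        rw [hq, map_zero]
        exact Finsupp.notMem_support_iff.1 hs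
      rw [h3]
      simp
  choose c hc using hc
  have hcK : ∀ s : K, (c s : K) = (m : K) * G.coeff s := by
    intro s
    have h3 := congrArg (algebraMap ℚ K) (hc s)
    rw [map_mul, hq, map_intCast, map_intCast] at h3
    exact h3
  have hcinv : ∀ (σ : K ≃ₐ[ℚ] K) (s : K), c (σ s) = c s := by
    intro σ s
    haveI : CharZero K := algebraRat.charZero K
    have h3 : (c (σ s) : K) = (c s : K) := by rw [hcK, hcK, hperm]
    exact_mod_cast h3
  have hw : c 0 ≠ 0 := by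
    intro h3
    have h4 := hcK 0
    rw [h3, Int.cast_zero] at h4
    haveI : CharZero K := algebraRat.charZero K
    rcases mul_eq_zero.1 h4.symm with h5 | h5
    · exact hm0 (by exact_mod_cast h5)
    · exact hG h5
  have hsupp : (0 : K) ∈ G.coeff.support := Finsupp.mem_support_iff.2 hG
  apply lw_field φ (G.coeff.support.erase 0) (Finset.notMem_erase _ _) c ?_ hcinv (c 0) hw
  · have h3 : ∀ s, (c s : ℂ) = (m : ℂ) * φ (G.coeff s) := by
      intro s
      have h4 := congrArg φ (hcK s)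
      rw [map_mul, map_intCast, map_intCast] at h4
      exact h4
    have h4 : ∑ s ∈ G.coeff.support, (c s : ℂ) * Complex.exp (φ s) = 0 := by
      have h5 : ∀ s ∈ G.coeff.support, (c s : ℂ) * Complex.exp (φ s) =
          (m : ℂ) * (φ (G.coeff s) * Complex.exp (φ s)) := by
        intro s _
        rw [h3]
        ring
      rw [Finset.sum_congr rfl h5, ← Finset.mul_sum, ← lwEv_eq, h2, mul_zero]
    rw [← Finset.add_sum_erase _ _ hsupp, map_zero, Complex.exp_zero, mul_one] at h4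
    exact h4
  · intro σ s hs
    rw [Finset.mem_erase] at hs ⊢
    refine ⟨fun h => hs.1 ?_, ?_⟩
    · exact (map_eq_zero_iff σ σ.injective).1 h
    · rw [Finsupp.mem_support_iff, hperm]
      exact Finsupp.mem_support_iff.1 hs.2

end

end Pool.Agent.MP_4aec10_nt
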