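import Pool.Agent.MP_4aec10_nt.LW3

set_option autoImplicit false

/-! Lindemann-Weierstrass, part 4: the theorem. -/

namespace Pool.Agent.MP_4aec10_nt

open Polynomial

/-- finitely many algebraic numbers lie in a finite Galois extension of `ℚ` inside `ℂ` -/
theorem lw4_field (S : Finset ℂ) (hS : ∀ s ∈ S, IsAlgebraic ℚ s) :
    ∃ K : IntermediateField ℚ ℂ, FiniteDimensional ℚ K ∧ IsGalois ℚ K ∧ ∀ s ∈ S, s ∈ K := by
  classical
  set P : ℚ[X] := ∏ s ∈ S, minpoly ℚ s with hP
  have hP0 : P ≠ 0 := Finset.prod_ne_zero_iff.2 fun s hs => minpoly.ne_zero (hS s hs).isIntegral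
  have hsp : (P.map (algebraMap ℚ ℂ)).Splits := IsAlgClosed.splits _
  have hSF : P.IsSplittingField ℚ (IntermediateField.adjoin ℚ (P.rootSet ℂ)) :=
    IntermediateField.adjoin_rootSet_isSplittingField hsp
  have hFD : FiniteDimensional ℚ (IntermediateField.adjoin ℚ (P.rootSet ℂ)) :=
    Polynomial.IsSplittingField.finiteDimensional _ P
  refine ⟨IntermediateField.adjoin ℚ (P.rootSet ℂ), hFD, ?_, ?_⟩
  · have hN : Normal ℚ (IntermediateField.adjoin ℚ (P.rootSet ℂ)) :=
      Normal.of_isSplittingField P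
    exact IsGalois.mk
  · intro s hs
    apply IntermediateField.subset_adjoin
    rw [mem_rootSet]
    refine ⟨hP0, ?_⟩
    rw [hP, map_prod]
    exact Finset.prod_eq_zero hs (minpoly.aeval ℚ s)

/-- Lindemann-Weierstrass: the exponentials of distinct algebraic numbers are linearly independent
over the algebraic numbers. -/
theorem lindemann (S : Finset ℂ) (b : ℂ → ℂ) (hS : ∀ s ∈ S, IsAlgebraic ℚ s)
    (hb : ∀ s ∈ S, IsAlgebraic ℚ (b s)) (h : ∑ s ∈ S, b s * Complex.exp s = 0) :
    ∀ s ∈ S, b s = 0 := by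
  classical
  obtain ⟨K, hK1, hK2, hK⟩ := lw4_field (S ∪ S.image b) (by
    intro s hs
    rcases Finset.mem_union.1 hs with h1 | h1
    · exact hS s h1
    · obtain ⟨t, ht, rfl⟩ := Finset.mem_image.1 h1
      exact hb t ht)
  have hK1' : ∀ s ∈ S, s ∈ K := fun s hs => hK s (Finset.mem_union_left _ hs)
  have hK2' : ∀ s ∈ S, b s ∈ K := fun s hs =>
    hK _ (Finset.mem_union_right _ (Finset.mem_image_of_mem b hs))
  set F : AddMonoidAlgebra K K := ∑ s : S, AddMonoidAlgebra.single
    (⟨s, hK1' s s.2⟩ : K) (⟨b s, hK2' s s.2⟩ : K) with hF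
  have hev : lwEv (K.val : K →+* ℂ) F = 0 := by
    rw [hF, map_sum, ← h, ← Finset.sum_coe_sort S]
    exact Finset.sum_congr rfl fun s _ => lwEv_single _ _ _
  have hF0 : F = 0 := by
    by_contra h1
    exact lw_group (K.val : K →+* ℂ) F h1 hev
  intro s hs
  have h1 : F.coeff (⟨s, hK1' s hs⟩ : K) = (⟨b s, hK2' s hs⟩ : K) := by
    rw [hF, AddMonoidAlgebra.coeff_sum, Finsupp.finsetSum_apply,
      Finset.sum_eq_single (⟨s, hs⟩ : S)]
    · rw [AddMonoidAlgebra.coeff_single, Finsupp.single_eq_same]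
    · intro t _ hts
      rw [AddMonoidAlgebra.coeff_single, Finsupp.single_eq_of_ne]
      intro h2
      apply hts
      have h3 := congrArg (fun x : K => (x : ℂ)) h2
      exact Subtype.ext h3.symm
    · intro h2
      exact absurd (Finset.mem_univ _) h2
  rw [hF0] at h1
  have h2 := congrArg (fun x : K => (x : ℂ)) h1
  exact h2.symm

/-- Lindemann-Weierstrass: the exponentials of algebraic numbers which are linearly independent over
`ℚ` are algebraically independent. -/
theorem lindemann_algInd {ι : Type*} (α : ι → ℂ) (hα : ∀ i, IsAlgebraic ℚ (α i))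
    (hli : LinearIndependent ℚ α) : AlgebraicIndependent ℚ fun i => Complex.exp (α i) := by
  classical
  rw [algebraicIndependent_iff]
  intro p hp
  set θ : (ι →₀ ℕ) → ℂ := fun m => m.sum fun i k => (k : ℂ) * α i with hθ
  have hinj : Function.Injective θ := by
    intro m m' h
    have h1 : Finsupp.linearCombination ℚ α (m.mapRange (fun k : ℕ => (k : ℚ)) Nat.cast_zero) =
        Finsupp.linearCombination ℚ α (m'.mapRange (fun k : ℕ => (k : ℚ)) Nat.cast_zero) := by
      have h2 : ∀ m : ι →₀ ℕ, Finsupp.linearCombination ℚ α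
          (m.mapRange (fun k : ℕ => (k : ℚ)) Nat.cast_zero) = θ m := by
        intro m
        rw [Finsupp.linearCombination_apply, Finsupp.sum_mapRange_index (by simp), hθ]
        refine Finsupp.sum_congr fun i _ => ?_
        rw [Rat.smul_def]
        push_cast
        rfl
      rw [h2, h2, h]
    have h3 := hli h1
    exact Finsupp.mapRange_injective _ Nat.cast_zero Nat.cast_injective h3
  have hexp : ∀ m : ι →₀ ℕ, (m.prod fun i k => Complex.exp (α i) ^ k) = Complex.exp (θ m) := by
    intro m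
    rw [hθ]
    simp only [Finsupp.prod, Finsupp.sum]
    rw [Complex.exp_sum]
    exact Finset.prod_congr rfl fun i _ => (Complex.exp_nat_mul _ _).symm
  have hsum : ∑ z ∈ p.support.image θ, (fun z => ((p.coeff (Function.invFun θ z) : ℚ) : ℂ)) z *
      Complex.exp z = 0 := by
    rw [Finset.sum_image fun x _ y _ h => hinj h, ← hp, MvPolynomial.aeval_def,
      MvPolynomial.eval₂_eq]
    refine Finset.sum_congr rfl fun m _ => ?_
    have h1 : Function.invFun θ (θ m) = m := Function.leftInverse_invFun hinj m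
    show ((p.coeff (Function.invFun θ (θ m)) : ℚ) : ℂ) * _ = _
    rw [h1, ← hexp]
    rfl
  have halg : ∀ m : ι →₀ ℕ, IsAlgebraic ℚ (θ m) := by
    intro m
    rw [hθ]
    simp only [Finsupp.sum]
    exact Finset.sum_induction _ (IsAlgebraic ℚ) (fun _ _ h1 h2 => h1.add h2) isAlgebraic_zero
      fun i _ => (isAlgebraic_nat (m i)).mul (hα i)
  have key := lindemann (p.support.image θ) _ (fun z hz => by
    obtain ⟨m, _, rfl⟩ := Finset.mem_image.1 hz
    exact halg m) (fun z _ => isAlgebraic_algebraMap _) hsum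
  by_contra h0
  obtain ⟨m, hm⟩ := MvPolynomial.exists_coeff_ne_zero h0
  have h1 := key (θ m) (Finset.mem_image_of_mem θ (MvPolynomial.mem_support_iff.2 hm))
  have h2 : Function.invFun θ (θ m) = m := Function.leftInverse_invFun hinj m
  simp only [h2] at h1
  exact hm ((map_eq_zero_iff _ (algebraMap ℚ ℂ).injective).1 h1)

end Pool.Agent.MP_4aec10_nt
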