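import Pool.Agent.MP_4aec10_nt.LW4
import Pool.Agent.MP_4aec10_nt.Easy

set_option autoImplicit false

/-! The defect of algebraic independence over a field of finite transcendence degree of the
exponentials of a finite-dimensional space of algebraic numbers, and its exceptional space. -/

namespace Pool.Agent.MP_4aec10_nt

open Complex Module

/-- the `ℚ`-space of algebraic numbers -/
noncomputable def QB : Submodule ℚ ℂ := Subalgebra.toSubmodule (algebraicClosure ℚ ℂ).toSubalgebra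

theorem mem_QB {x : ℂ} : x ∈ QB ↔ IsAlgebraic ℚ x :=
  mem_algebraicClosure_iff

/-- finite-dimensional spaces of algebraic numbers -/
def PV (V : Submodule ℚ ℂ) : Prop := FiniteDimensional ℚ V ∧ V ≤ QB

theorem PV.inf {V W : Submodule ℚ ℂ} (hV : PV V) : PV (V ⊓ W) := by
  have := hV.1
  exact ⟨Submodule.finiteDimensional_inf_left V W, inf_le_left.trans hV.2⟩

theorem PV.sup {V W : Submodule ℚ ℂ} (hV : PV V) (hW : PV W) : PV (V ⊔ W) := by
  have := hV.1
  have := hW.1
  exact ⟨Submodule.finiteDimensional_sup V W, sup_le hV.2 hW.2⟩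

theorem PV_span {ι : Type} [Fintype ι] {α : ι → ℂ} (hα : ∀ i, IsAlgebraic ℚ (α i)) :
    PV (Submodule.span ℚ (Set.range α)) := by
  refine ⟨FiniteDimensional.span_of_finite ℚ (Set.finite_range α), ?_⟩
  rw [Submodule.span_le]
  rintro _ ⟨i, rfl⟩
  exact mem_QB.2 (hα i)

theorem PV_bot : PV ⊥ := ⟨inferInstance, bot_le⟩

/-- the matroid of algebraic independence over `F` -/
noncomputable abbrev MF (F : IntermediateField ℚ ℂ) : Matroid ℂ := AlgebraicIndependent.matroid F ℂ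

theorem mem_closure {F : IntermediateField ℚ ℂ} {s : Set ℂ} {x : ℂ} :
    x ∈ (MF F).closure s ↔ IsAlgebraic (Algebra.adjoin F s) x := by
  rw [AlgebraicIndependent.matroid_closure_eq]
  rfl

/-- exponentials of a span are algebraic over the exponentials of a spanning set -/
theorem exp_span_subset (F : IntermediateField ℚ ℂ) (B : Set ℂ) :
    exp '' (Submodule.span ℚ B : Set ℂ) ⊆ (MF F).closure (exp '' B) := by
  rintro _ ⟨v, hv, rfl⟩
  refine Submodule.span_induction (p := fun v _ => exp v ∈ (MF F).closure (exp '' B))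
    ?_ ?_ ?_ ?_ hv
  · intro v hv
    exact (MF F).subset_closure (exp '' B) (Set.subset_univ _) ⟨v, hv, rfl⟩
  · rw [mem_closure, exp_zero]
    exact isAlgebraic_one
  · intro v w _ _ h1 h2
    rw [mem_closure] at *
    rw [exp_add]
    exact h1.mul h2
  · intro q v _ h1
    rw [mem_closure] at *
    have h2 : IsAlgebraic (Algebra.adjoin F (exp '' B)) (exp (q • v) ^ q.den) := by
      have h3 : exp (q • v) ^ q.den = exp v ^ q.num := by
        rw [← exp_nat_mul, ← exp_int_mul]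
        congr 1
        rw [Rat.smul_def, ← mul_assoc]
        congr 1
        have := Rat.den_mul_eq_num q
        exact_mod_cast congrArg (fun x : ℚ => (x : ℂ)) this
      rw [h3]
      rcases q.num.eq_nat_or_neg with ⟨m, hm | hm⟩
      · rw [hm, zpow_natCast]
        exact h1.pow m
      · rw [hm, zpow_neg, zpow_natCast]
        exact (h1.pow m).inv
    exact IsAlgebraic.of_pow q.den_pos h2

/-- rank over `F` of the exponentials of `V` -/
noncomputable def rkF (F : IntermediateField ℚ ℂ) (V : Submodule ℚ ℂ) : ℕ∞ :=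
  (MF F).eRk (exp '' (V : Set ℂ))

theorem rkF_mono (F : IntermediateField ℚ ℂ) {V W : Submodule ℚ ℂ} (h : V ≤ W) :
    rkF F V ≤ rkF F W :=
  (MF F).eRk_mono (Set.image_mono h)

theorem rkF_span (F : IntermediateField ℚ ℂ) (B : Set ℂ) :
    rkF F (Submodule.span ℚ B) = (MF F).eRk (exp '' B) := by
  apply le_antisymm
  · rw [← (MF F).eRk_closure_eq (exp '' B)]
    exact (MF F).eRk_mono (exp_span_subset F B)
  · exact (MF F).eRk_mono (Set.image_mono Submodule.subset_span)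

theorem rkF_submod (F : IntermediateField ℚ ℂ) (V W : Submodule ℚ ℂ) :
    rkF F (V ⊓ W) + rkF F (V ⊔ W) ≤ rkF F V + rkF F W := by
  have h1 : rkF F (V ⊔ W) = (MF F).eRk (exp '' (V : Set ℂ) ∪ exp '' (W : Set ℂ)) := by
    rw [← Set.image_union, ← rkF_span, Submodule.span_union, Submodule.span_eq, Submodule.span_eq]
  have h2 : rkF F (V ⊓ W) ≤ (MF F).eRk (exp '' (V : Set ℂ) ∩ exp '' (W : Set ℂ)) := by
    apply (MF F).eRk_mono
    rintro _ ⟨v, hv, rfl⟩
    exact ⟨⟨v, hv.1, rfl⟩, ⟨v, hv.2, rfl⟩⟩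
  rw [h1]
  exact (add_le_add_left h2 _).trans ((MF F).eRk_inter_add_eRk_union_le _ _)

/-- a basis of `V` -/
theorem exists_bas (V : Submodule ℚ ℂ) [FiniteDimensional ℚ V] :
    ∃ b : Fin (finrank ℚ V) → ℂ, LinearIndependent ℚ b ∧ Submodule.span ℚ (Set.range b) = V := by
  let b := Module.finBasis ℚ V
  refine ⟨fun i => (b i : ℂ), b.linearIndependent.map' V.subtype (Submodule.ker_subtype V), ?_⟩
  have h1 : Set.range (fun i => (b i : ℂ)) = V.subtype '' Set.range b := by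
    rw [← Set.range_comp]
    rfl
  rw [h1, Submodule.span_image, b.span_eq, Submodule.map_subtype_top]

theorem rkF_le (F : IntermediateField ℚ ℂ) (V : Submodule ℚ ℂ) [FiniteDimensional ℚ V] :
    rkF F V ≤ finrank ℚ V := by
  obtain ⟨b, -, hb⟩ := exists_bas V
  have h1 : rkF F V = (MF F).eRk (exp '' (Set.range b)) := by
    rw [← rkF_span, hb]
  rw [h1, ← Set.range_comp]
  refine ((MF F).eRk_le_encard _).trans ?_
  rw [← Set.image_univ]
  refine (Set.encard_image_le _ _).trans ?_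
  rw [Set.encard_univ]
  simp

/-- the lower bound: Lindemann-Weierstrass -/
theorem le_rkF_add (F : IntermediateField ℚ ℂ) {t : ℕ} (ht : Algebra.trdeg ℚ F ≤ t)
    {V : Submodule ℚ ℂ} (hV : PV V) : (finrank ℚ V : ℕ∞) ≤ rkF F V + t := by
  have := hV.1
  obtain ⟨b, hb1, hb⟩ := exists_bas V
  have hbV : ∀ i, b i ∈ V := fun i => by
    rw [← hb]
    exact Submodule.subset_span ⟨i, rfl⟩
  have hLW : AlgebraicIndependent ℚ fun i => exp (b i) :=
    lindemann_algInd b (fun i => mem_QB.1 (hV.2 (hbV i))) hb1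
  obtain ⟨S, hST, hS, hcard⟩ := exists_indep_subset F (Set.range fun i => exp (b i))
  set L := IntermediateField.adjoin F (Set.range fun i => exp (b i)) with hL
  have h1 : AlgebraicIndependent ℚ (fun i => (⟨exp (b i),
      IntermediateField.subset_adjoin F _ ⟨i, rfl⟩⟩ : L)) :=
    AlgebraicIndependent.of_comp (L.val.restrictScalars ℚ) hLW
  have h2 : ((finrank ℚ V : ℕ) : Cardinal) ≤ Algebra.trdeg ℚ L := by
    have := h1.cardinalMk_le_trdeg
    simpa using this
  have h3 : Algebra.trdeg ℚ F + Algebra.trdeg F L = Algebra.trdeg ℚ L :=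
    trdeg_add_eq ℚ F
  have h4 : ((finrank ℚ V : ℕ) : Cardinal) ≤ t + Cardinal.mk S := by
    rw [← h3] at h2
    exact h2.trans (add_le_add ht hcard)
  have h5' : ∀ n : ℕ, (n : Cardinal) ≤ t + Cardinal.mk S → (n : ℕ∞) ≤ t + S.encard := by
    intro n hn
    have := OrderHomClass.mono Cardinal.toENat hn
    simpa using this
  have h5 : (finrank ℚ V : ℕ∞) ≤ t + S.encard := h5' _ h4
  have h6 : S.encard ≤ rkF F V := by
    apply Matroid.Indep.encard_le_eRk_of_subset
    · exact hS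
    · refine hST.trans ?_
      rintro _ ⟨i, rfl⟩
      exact ⟨b i, hbV i, rfl⟩
  rw [add_comm]
  exact h5.trans (add_le_add_right h6 _)

/-- rank over `F` of the exponentials of `V`, as a natural number -/
noncomputable def rkN (F : IntermediateField ℚ ℂ) (V : Submodule ℚ ℂ) : ℕ := (rkF F V).toNat

theorem rkN_coe (F : IntermediateField ℚ ℂ) {V : Submodule ℚ ℂ} (hV : PV V) :
    ((rkN F V : ℕ) : ℕ∞) = rkF F V := by
  have := hV.1
  apply ENat.coe_toNat
  exact ne_top_of_le_ne_top (ENat.coe_ne_top _) (rkF_le F V)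

theorem rkN_le (F : IntermediateField ℚ ℂ) {V : Submodule ℚ ℂ} (hV : PV V) :
    rkN F V ≤ finrank ℚ V := by
  have := hV.1
  have h := rkF_le F V
  rw [← rkN_coe F hV] at h
  exact_mod_cast h

theorem le_rkN_add (F : IntermediateField ℚ ℂ) {t : ℕ} (ht : Algebra.trdeg ℚ F ≤ t)
    {V : Submodule ℚ ℂ} (hV : PV V) : finrank ℚ V ≤ rkN F V + t := by
  have h := le_rkF_add F ht hV
  rw [← rkN_coe F hV] at h
  exact_mod_cast h

theorem rkN_submod (F : IntermediateField ℚ ℂ) {V W : Submodule ℚ ℂ} (hV : PV V) (hW : PV W) :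
    rkN F (V ⊓ W) + rkN F (V ⊔ W) ≤ rkN F V + rkN F W := by
  have h := rkF_submod F V W
  rw [← rkN_coe F hV, ← rkN_coe F hW, ← rkN_coe F hV.inf, ← rkN_coe F (hV.sup hW)] at h
  exact_mod_cast h

/-- the defect -/
noncomputable def dlt (F : IntermediateField ℚ ℂ) (V : Submodule ℚ ℂ) : ℕ :=
  finrank ℚ V - rkN F V

theorem dlt_add (F : IntermediateField ℚ ℂ) {V : Submodule ℚ ℂ} (hV : PV V) :
    dlt F V + rkN F V = finrank ℚ V := by
  have := rkN_le F hV
  unfold dlt
  omega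

theorem dlt_bot (F : IntermediateField ℚ ℂ) : dlt F ⊥ = 0 := by
  unfold dlt
  rw [finrank_bot]
  omega

theorem dlt_le (F : IntermediateField ℚ ℂ) {t : ℕ} (ht : Algebra.trdeg ℚ F ≤ t)
    {V : Submodule ℚ ℂ} (hV : PV V) : dlt F V ≤ t := by
  have := le_rkN_add F ht hV
  unfold dlt
  omega

theorem dlt_super (F : IntermediateField ℚ ℂ) {V W : Submodule ℚ ℂ} (hV : PV V) (hW : PV W) :
    dlt F V + dlt F W ≤ dlt F (V ⊓ W) + dlt F (V ⊔ W) := by
  have := hV.1
  have := hW.1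
  have h1 := rkN_submod F hV hW
  have h2 := Submodule.finrank_sup_add_finrank_inf_eq V W
  have h3 := dlt_add F hV
  have h4 := dlt_add F hW
  have h5 := dlt_add F (hV.inf (W := W))
  have h6 := dlt_add F (hV.sup hW)
  omega

theorem dlt_mono (F : IntermediateField ℚ ℂ) {V W : Submodule ℚ ℂ} (hW : PV W) (hVW : V ≤ W) :
    dlt F V ≤ dlt F W := by
  have := hW.1
  have hV : PV V := ⟨Submodule.finiteDimensional_of_le hVW, hVW.trans hW.2⟩
  have := hV.1
  obtain ⟨C, hC⟩ := Submodule.exists_isCompl V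
  have hU : PV (W ⊓ C) := hW.inf
  have h1 : V ⊔ W ⊓ C = W := by
    rw [inf_comm, ← sup_inf_assoc_of_le C hVW, hC.sup_eq_top, top_inf_eq]
  have h2 : V ⊓ (W ⊓ C) = ⊥ := by
    rw [eq_bot_iff, ← hC.inf_eq_bot]
    exact inf_le_inf le_rfl inf_le_right
  have h3 := dlt_super F hV hU
  rw [h1, h2] at h3
  have h4 := dlt_bot F
  omega

/-- the exceptional space of `F` -/
theorem exists_exc (F : IntermediateField ℚ ℂ) {t : ℕ} (ht : Algebra.trdeg ℚ F ≤ t) :
    ∃ V₀ : Submodule ℚ ℂ, PV V₀ ∧ (∀ W, PV W → dlt F W ≤ dlt F V₀) ∧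
      (∀ W, PV W → dlt F W ≤ dlt F (W ⊓ V₀)) ∧ (∀ W, PV W → dlt F W = dlt F V₀ → V₀ ≤ W) := by
  set A : Set ℕ := {k | ∃ V, PV V ∧ dlt F V = k} with hA
  have hA1 : A.Nonempty := ⟨_, ⊥, PV_bot, rfl⟩
  have hA2 : BddAbove A := ⟨t, by
    rintro _ ⟨V, hV, rfl⟩
    exact dlt_le F ht hV⟩
  obtain ⟨V₁, hV₁, hV₁k⟩ := Nat.sSup_mem hA1 hA2
  have hmax : ∀ W, PV W → dlt F W ≤ sSup A := fun W hW => le_csSup hA2 ⟨W, hW, rfl⟩
  set B : Set ℕ := {m | ∃ V, PV V ∧ dlt F V = sSup A ∧ finrank ℚ V = m} with hB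
  have hB1 : B.Nonempty := ⟨_, V₁, hV₁, hV₁k, rfl⟩
  obtain ⟨V₀, hV₀, hV₀k, hV₀m⟩ := Nat.sInf_mem hB1
  have hinf : ∀ W, PV W → dlt F W ≤ dlt F (W ⊓ V₀) := by
    intro W hW
    have h1 := dlt_super F hW hV₀
    have h2 := hmax _ (hW.sup hV₀)
    omega
  refine ⟨V₀, hV₀, fun W hW => by rw [hV₀k]; exact hmax W hW, hinf, ?_⟩
  intro W hW hWk
  have := hV₀.1
  have h1 := hinf W hW
  have h2 := hmax _ (hW.inf (W := V₀))
  have h3 : finrank ℚ V₀ ≤ finrank ℚ (W ⊓ V₀ : Submodule ℚ ℂ) := by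
    rw [hV₀m]
    exact Nat.sInf_le ⟨W ⊓ V₀, hW.inf, by omega, rfl⟩
  have h4 : W ⊓ V₀ = V₀ := Submodule.eq_of_le_of_finrank_le inf_le_right h3
  rw [← h4]
  exact inf_le_left

end Pool.Agent.MP_4aec10_nt
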