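import Pool.Agent.MP_4aec10_nt.LW5

set_option autoImplicit false

/-! Vanishing defect is algebraic independence; complex conjugation; the field of the period. -/

namespace Pool.Agent.MP_4aec10_nt

open Complex Module

/-- vanishing defect of the span gives algebraic independence -/
theorem algInd_of_dlt (F : IntermediateField ℚ ℂ) {ι : Type} [Fintype ι] (α : ι → ℂ)
    (hα : ∀ i, IsAlgebraic ℚ (α i)) (hli : LinearIndependent ℚ α)
    (h : dlt F (Submodule.span ℚ (Set.range α)) = 0) :
    AlgebraicIndependent F fun i => exp (α i) := by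
  have hV := PV_span hα
  have h1 := dlt_add F hV
  have h2 : finrank ℚ (Submodule.span ℚ (Set.range α)) = Fintype.card ι :=
    finrank_span_eq_card hli
  have h3 : rkF F (Submodule.span ℚ (Set.range α)) = (Fintype.card ι : ℕ) := by
    rw [← rkN_coe F hV]
    congr 1
    omega
  rw [rkF_span, ← Set.range_comp] at h3
  have h4 : (Set.range (exp ∘ α)).encard ≤ (Fintype.card ι : ℕ) := by
    rw [← Set.image_univ]
    refine (Set.encard_image_le _ _).trans ?_
    rw [Set.encard_univ]
    simp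
  have hfin : (Set.range (exp ∘ α)).Finite := Set.finite_range _
  have h5 : (MF F).Indep (Set.range (exp ∘ α)) := by
    rw [Matroid.indep_iff_eRk_eq_encard_of_finite hfin]
    exact le_antisymm ((MF F).eRk_le_encard _) (by rw [h3]; exact h4)
  have h6 : (Set.range (exp ∘ α)).encard = (Fintype.card ι : ℕ) := by
    rw [← h5.eRk_eq_encard, h3]
  have h7 : Function.Injective (exp ∘ α) := by
    have h8 : (Set.range (exp ∘ α)).ncard = Fintype.card ι := by
      rw [Set.ncard, h6]
      rfl
    have h9 : (Finset.univ.image (exp ∘ α)).card = Fintype.card ι := by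
      rw [← h8, ← Set.ncard_coe_finset]
      congr 1
      rw [Finset.coe_image, Finset.coe_univ, Set.image_univ]
    have h10 : Set.InjOn (exp ∘ α) (Finset.univ : Finset ι) :=
      Finset.card_image_iff.1 (by rw [h9]; rfl)
    intro a b hab
    exact h10 (by simp) (by simp) hab
  exact AlgebraicIndependent.of_subtype_range h7 h5

/-- complex conjugation as a linear map over `ℚ` -/
noncomputable def cj : ℂ →ₗ[ℚ] ℂ := (Complex.conjAe.toLinearMap).restrictScalars ℚ

theorem cj_apply (x : ℂ) : cj x = (starRingEnd ℂ) x := rfl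

theorem cj_inj : Function.Injective cj := fun _ _ h => (starRingEnd ℂ).injective h

theorem PV.cj {V : Submodule ℚ ℂ} (hV : PV V) : PV (V.map cj) := by
  have := hV.1
  refine ⟨inferInstance, ?_⟩
  rintro _ ⟨x, hx, rfl⟩
  rw [mem_QB, cj_apply]
  exact (mem_QB.1 (hV.2 hx)).algHom (Complex.conjAe.toAlgHom.restrictScalars ℚ)

theorem finrank_cj (V : Submodule ℚ ℂ) : finrank ℚ (V.map cj) = finrank ℚ V :=
  (LinearEquiv.finrank_eq (Submodule.equivMapOfInjective cj cj_inj V)).symm

theorem eRk_conj_le {F : IntermediateField ℚ ℂ} (hF : ∀ x ∈ F, (starRingEnd ℂ) x ∈ F) (X : Set ℂ) :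
    (MF F).eRk X ≤ (MF F).eRk ((starRingEnd ℂ) '' X) := by
  obtain ⟨I, hI⟩ := (MF F).exists_isBasis' X
  rw [← hI.encard_eq_eRk]
  let f : F →+* F := ((starRingEnd ℂ).comp (algebraMap F ℂ)).codRestrict F fun x => hF x x.2
  have hf : Function.Surjective f := by
    intro x
    refine ⟨⟨(starRingEnd ℂ) x, hF x x.2⟩, ?_⟩
    apply Subtype.ext
    exact Complex.conj_conj (x : ℂ)
  have h1 : AlgebraicIndependent F (fun x : I => (x : ℂ)) := hI.indep
  have h2 := h1.ringHom_of_comp_eq f (starRingEnd ℂ) hf (starRingEnd ℂ).injective rfl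
  have h3 := h2.to_subtype_range
  have h4 : Set.range ((starRingEnd ℂ) ∘ fun x : I => (x : ℂ)) = (starRingEnd ℂ) '' I := by
    rw [Set.range_comp, Subtype.range_coe]
  have h5 : (MF F).Indep ((starRingEnd ℂ) '' I) := by
    rw [← h4]
    exact h3
  rw [← (starRingEnd ℂ).injective.encard_image I]
  exact h5.encard_le_eRk_of_subset (Set.image_mono hI.subset)

theorem dlt_cj {F : IntermediateField ℚ ℂ} (hF : ∀ x ∈ F, (starRingEnd ℂ) x ∈ F)
    {V : Submodule ℚ ℂ} (hV : PV V) : dlt F V ≤ dlt F (V.map cj) := by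
  have h1 := dlt_add F hV
  have h2 := dlt_add F hV.cj
  rw [finrank_cj] at h2
  have h3 : rkN F (V.map cj) ≤ rkN F V := by
    have h4 : rkF F (V.map cj) ≤ rkF F V := by
      refine (eRk_conj_le hF _).trans ((MF F).eRk_mono ?_)
      rintro _ ⟨_, ⟨_, ⟨v, hv, rfl⟩, rfl⟩, rfl⟩
      refine ⟨v, hv, ?_⟩
      rw [cj_apply, Complex.exp_conj, Complex.conj_conj]
    rw [← rkN_coe F hV, ← rkN_coe F hV.cj] at h4
    exact_mod_cast h4
  omega

/-- the matroid over `ℚ` -/
theorem mem_FF {x : ℂ} : x ∈ FF ↔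
    IsAlgebraic (Algebra.adjoin ℚ {(2 * Real.pi * I : ℂ)}) x := by
  open scoped IntermediateField.algebraAdjoinAdjoin in
  rw [IsFractionRing.isAlgebraic_iff (Algebra.adjoin ℚ {(2 * Real.pi * I : ℂ)})
    (IntermediateField.adjoin ℚ {(2 * Real.pi * I : ℂ)})]
  exact mem_algebraicClosure_iff

theorem FF_conj : ∀ x ∈ FF, (starRingEnd ℂ) x ∈ FF := by
  intro x hx
  rw [mem_FF] at *
  set A := Algebra.adjoin ℚ {(2 * Real.pi * I : ℂ)} with hA
  let g : ℂ →ₐ[ℚ] ℂ := Complex.conjAe.toAlgHom.restrictScalars ℚ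
  have hg : ∀ y ∈ A, g y ∈ A := by
    intro y hy
    have h1 : g y ∈ A.map g := ⟨y, hy, rfl⟩
    have h2 : A.map g ≤ A := by
      rw [hA, AlgHom.map_adjoin, Algebra.adjoin_le_iff]
      rintro _ ⟨z, rfl, rfl⟩
      have h3 : g (2 * Real.pi * I : ℂ) = -(2 * Real.pi * I : ℂ) := by
        show (starRingEnd ℂ) (2 * Real.pi * I : ℂ) = _
        rw [map_mul, map_mul, Complex.conj_I, Complex.conj_ofReal]
        have : (starRingEnd ℂ) (2 : ℂ) = 2 := Complex.conj_ofNat 2
        rw [this]
        ring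
      rw [h3]
      exact neg_mem (Algebra.subset_adjoin rfl)
    exact h2 h1
  let f : A →+* A := (g.toRingHom.comp (algebraMap A ℂ)).codRestrict A fun y => hg y y.2
  have hf : Function.Injective f := by
    intro y z h
    apply Subtype.ext
    exact (starRingEnd ℂ).injective (congrArg (fun w : A => (w : ℂ)) h)
  exact hx.ringHom_of_comp_eq f g.toRingHom hf rfl

theorem trdeg_FF : Algebra.trdeg ℚ FF ≤ (1 : ℕ) := by
  rw [Nat.cast_one]
  apply ciSup_le'
  rintro ⟨s, hs⟩
  have h1 : AlgebraicIndependent ℚ (fun x : s => ((x : FF) : ℂ)) :=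
    hs.map' (f := FF.val) FF.val.injective
  have h2 := h1.to_subtype_range
  have h3 : (AlgebraicIndependent.matroid ℚ ℂ).Indep (Set.range fun x : s => ((x : FF) : ℂ)) := h2
  have h4 : (Set.range fun x : s => ((x : FF) : ℂ)) ⊆
      (AlgebraicIndependent.matroid ℚ ℂ).closure {(2 * Real.pi * I : ℂ)} := by
    rintro _ ⟨x, rfl⟩
    rw [AlgebraicIndependent.matroid_closure_eq]
    exact mem_FF.1 (x : FF).2
  have h5 := h3.encard_le_eRk_of_subset h4
  rw [Matroid.eRk_closure_eq] at h5
  have h6 := h5.trans ((AlgebraicIndependent.matroid ℚ ℂ).eRk_singleton_le _)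
  have h7 : Function.Injective fun x : s => ((x : FF) : ℂ) := h1.injective
  have h8 : ENat.card s ≤ 1 := h7.encard_range.trans h6
  rw [ENat.card_le_one_iff_subsingleton] at h8
  exact Cardinal.le_one_iff_subsingleton.2 h8

end Pool.Agent.MP_4aec10_nt
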