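import Pool.Agent.MP_4aec10_nt.LW6
import Pool.Agent.MP_4aec10_nt.Final
import Pool.Agent.MP_4aec10_nt.Defs2

set_option autoImplicit false

/-! The inequality of Q1 for tori at sums of algebraic points and logarithms of algebraic points. -/

namespace Pool.Agent.MP_4aec10_nt

open Complex Module

theorem alg_prod {ι : Type} {x : ι → ℂ} (hx : ∀ i, IsAlgebraic ℚ (x i)) (v : ι → ℤ)
    (s : Finset ι) : IsAlgebraic ℚ (∏ i ∈ s, x i ^ v i) := by
  classical
  induction s using Finset.induction_on with
  | empty => simpa using isAlgebraic_one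
  | insert b s hb ih =>
    rw [Finset.prod_insert hb]
    exact (alg_zpow (hx b) _).mul ih

theorem alg_lin {ι : Type} [Fintype ι] {x : ι → ℂ} (hx : ∀ i, IsAlgebraic ℚ (x i)) (v : ι → ℤ) :
    IsAlgebraic ℚ (lin v x) := by
  unfold lin
  exact Finset.sum_induction _ (IsAlgebraic ℚ) (fun _ _ h1 h2 => h1.add h2) isAlgebraic_zero
    fun i _ => (isAlgebraic_int (v i)).mul (hx i)

theorem alg_FF {x : ℂ} (hx : IsAlgebraic ℚ x) : x ∈ FF :=
  FF_closed x (hx.extendScalars (algebraMap ℚ FF).injective)

/-- Hermite-Lindemann -/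
theorem hermite {x : ℂ} (h1 : IsAlgebraic ℚ x) (h2 : IsAlgebraic ℚ (exp x)) : x = 0 := by
  classical
  by_contra h0
  have h := lindemann {0, x} (fun z => if z = 0 then -exp x else 1) (by
      intro s hs
      rcases Finset.mem_insert.1 hs with rfl | hs
      · exact isAlgebraic_zero
      · rw [Finset.mem_singleton.1 hs]
        exact h1) (by
      intro s _
      show IsAlgebraic ℚ (if s = 0 then -exp x else 1)
      split_ifs
      · exact h2.neg
      · exact isAlgebraic_one) (by
      rw [Finset.sum_pair (Ne.symm h0), if_pos rfl, if_neg h0, exp_zero]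
      ring) x (by simp)
  rw [if_neg h0] at h
  exact one_ne_zero h

/-- common denominators -/
theorem common_den {κ : Type} [Fintype κ] (c : κ → ℚ) :
    ∃ (m : ℕ) (n : κ → ℤ), 0 < m ∧ ∀ k, (m : ℚ) * c k = n k := by
  have h1 : ∀ k, (c k).den ∣ ∏ k, (c k).den := fun k =>
    Finset.dvd_prod_of_mem (fun k => (c k).den) (Finset.mem_univ k)
  choose q hq using h1
  refine ⟨∏ k, (c k).den, fun k => q k * (c k).num, Finset.prod_pos fun k _ => (c k).den_pos, ?_⟩
  intro k
  rw [hq k]
  push_cast
  have := Rat.den_mul_eq_num (c k)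
  linear_combination (q k : ℚ) * this

theorem dd_le_of_basis {ι κ : Type} [Fintype ι] [Fintype κ] (α l : ι → ℂ)
    (hl : ∀ i, IsAlgebraic ℚ (exp (l i))) (a : κ → ι) (ha : Function.Injective a)
    (hsp : Submodule.span ℚ (Set.range (α ∘ a)) = Submodule.span ℚ (Set.range α)) :
    dd (fun i => exp ((α + l) i)) ≤ Fintype.card κ := by
  classical
  have hcard : (Finset.univ.image a).card = Fintype.card κ := Finset.card_image_of_injective _ ha
  rw [← hcard]
  apply dd_le
  intro i hi
  have hi' : ∀ k, a k ≠ i := fun k hk => hi (Finset.mem_image.2 ⟨k, Finset.mem_univ _, hk⟩)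
  have h1 : α i ∈ Submodule.span ℚ (Set.range (α ∘ a)) := by
    rw [hsp]
    exact Submodule.subset_span ⟨i, rfl⟩
  obtain ⟨c, hc⟩ := (Submodule.mem_span_range_iff_exists_fun ℚ).1 h1
  obtain ⟨m, n, hm, hmn⟩ := common_den c
  refine ⟨m, Pi.single i (m : ℤ) - ∑ k, Pi.single (a k) (n k), by exact_mod_cast hm, ?_, ?_, ?_⟩
  · rw [Pi.sub_apply, Pi.single_eq_same, Finset.sum_apply, Finset.sum_eq_zero, sub_zero]
    intro k _
    exact Pi.single_eq_of_ne (Ne.symm (hi' k)) _
  · intro j hji hj
    rw [Pi.sub_apply, Pi.single_eq_of_ne hji, Finset.sum_apply, Finset.sum_eq_zero, sub_zero]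
    intro k _
    apply Pi.single_eq_of_ne
    rintro rfl
    exact hj (Finset.mem_image.2 ⟨k, Finset.mem_univ _, rfl⟩)
  · set v : ι → ℤ := Pi.single i (m : ℤ) - ∑ k, Pi.single (a k) (n k) with hv
    have h2 : lin v α = 0 := by
      have h3 : ∀ s : Finset κ, lin (∑ k ∈ s, Pi.single (a k) (n k)) α =
          ∑ k ∈ s, (n k : ℂ) * α (a k) := by
        intro s
        induction s using Finset.induction_on with
        | empty => simp [lin]
        | insert b s hb ih =>
          rw [Finset.sum_insert hb, Finset.sum_insert hb, lin_add, lin_single, ih]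
      rw [hv, lin_sub, lin_single, h3, ← hc]
      push_cast
      rw [Finset.mul_sum, sub_eq_zero]
      refine Finset.sum_congr rfl fun k _ => ?_
      rw [Function.comp_apply, Rat.smul_def, ← mul_assoc]
      congr 1
      have := congrArg (fun x : ℚ => (x : ℂ)) (hmn k)
      push_cast at this
      exact this
    have h4 : lin v (α + l) = lin v l := by
      rw [lin_add_right, h2, zero_add]
    rw [h4, exp_lin]
    exact alg_prod hl v Finset.univ

theorem ineq_of_dlt {ι : Type} [Fintype ι] (α l : ι → ℂ) (hα : ∀ i, IsAlgebraic ℚ (α i))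
    (hl : ∀ i, IsAlgebraic ℚ (exp (l i)))
    (h : dlt FF (Submodule.span ℚ (Set.range α)) = 0) : Ineq (α + l) := by
  classical
  obtain ⟨κ, a, ha, hsp, hli⟩ := exists_linearIndependent' ℚ α
  have : Finite κ := Finite.of_injective a ha
  have : Fintype κ := Fintype.ofFinite κ
  have hdd := dd_le_of_basis α l hl a ha hsp
  have hind : AlgebraicIndependent FF fun k => exp ((α ∘ a) k) :=
    algInd_of_dlt FF (α ∘ a) (fun k => hα (a k)) hli (by rw [hsp]; exact h)
  set L := IntermediateField.adjoin FF (Set.range (α + l) ∪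
    Set.range fun i => exp ((α + l) i)) with hL
  have hmem : ∀ k, exp ((α ∘ a) k) ∈ L := by
    intro k
    have h1 : exp ((α + l) (a k)) ∈ L := IntermediateField.subset_adjoin FF _ (Or.inr ⟨a k, rfl⟩)
    have h2 : (exp (l (a k)))⁻¹ ∈ L :=
      L.algebraMap_mem ⟨(exp (l (a k)))⁻¹, alg_FF (hl (a k)).inv⟩
    have h3 : exp ((α ∘ a) k) = exp ((α + l) (a k)) * (exp (l (a k)))⁻¹ := by
      rw [Pi.add_apply, exp_add, mul_assoc, mul_inv_cancel₀ (exp_ne_zero _), mul_one]
      rfl
    rw [h3]
    exact mul_mem h1 h2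
  have h1 : AlgebraicIndependent FF fun k : κ => (⟨exp ((α ∘ a) k), hmem k⟩ : L) :=
    AlgebraicIndependent.of_comp L.val hind
  have h2 := h1.cardinalMk_le_trdeg
  rw [Cardinal.mk_fintype] at h2
  exact le_trans (by exact_mod_cast hdd) h2

theorem le_dd_of_basis {ι κ : Type} [Fintype ι] [Fintype κ] (r : ι → ℂ)
    (hr : ∀ i, IsAlgebraic ℚ (r i)) (a : κ → ι) (ha : Function.Injective a)
    (hli : LinearIndependent ℚ (r ∘ a)) : Fintype.card κ ≤ dd (fun i => exp (r i)) := by
  classical
  have hne : {k | ∃ Λ : AddSubgroup (ι → ℤ), k + Module.finrank ℤ Λ = Fintype.card ι ∧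
      LiesIn (fun i => exp (r i)) Λ}.Nonempty := by
    refine ⟨Fintype.card ι, ⊥, ?_, fun _ => 1, fun i => ⟨one_ne_zero, isAlgebraic_one⟩, ?_⟩
    · have : Module.finrank ℤ (⊥ : AddSubgroup (ι → ℤ)) = 0 := by
        have : Subsingleton (⊥ : AddSubgroup (ι → ℤ)) := inferInstance
        exact Module.finrank_zero_of_subsingleton
      omega
    · intro a ha
      rw [AddSubgroup.mem_bot] at ha
      subst ha
      simp
  obtain ⟨Λ, hΛ, y, hy, hyΛ⟩ := Nat.sInf_mem hne
  have hlin : ∀ v ∈ Λ, lin v r = 0 := by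
    intro v hv
    refine hermite (alg_lin hr v) ?_
    rw [exp_lin, hyΛ v hv]
    exact alg_prod (fun i => (hy i).2) v Finset.univ
  let J := {i : ι // i ∉ Set.range a}
  let φ : Λ →ₗ[ℤ] (J → ℤ) :=
    { toFun := fun v j => (v : ι → ℤ) j
      map_add' := fun _ _ => rfl
      map_smul' := fun _ _ => rfl }
  have hφ : Function.Injective φ := by
    rw [injective_iff_map_eq_zero]
    rintro ⟨v, hv⟩ h0
    have h1 : ∀ j, j ∉ Set.range a → v j = 0 := fun j hj => congrFun h0 ⟨j, hj⟩
    have h2 := hlin v hv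
    have h3 : ∑ k, (v (a k) : ℚ) • (r ∘ a) k = 0 := by
      rw [← h2]
      unfold lin
      have h4 : ∑ i ∈ Finset.univ.image a, (v i : ℂ) * r i = ∑ i, (v i : ℂ) * r i := by
        apply Finset.sum_subset (Finset.subset_univ _)
        intro i _ hi
        rw [h1 i (fun ⟨k, hk⟩ => hi (Finset.mem_image.2 ⟨k, Finset.mem_univ _, hk⟩)), Int.cast_zero,
          zero_mul]
      rw [← h4, Finset.sum_image fun x _ y _ h => ha h]
      refine Finset.sum_congr rfl fun k _ => ?_
      rw [Rat.smul_def]
      push_cast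
      rfl
    have h5 := Fintype.linearIndependent_iff.1 hli (fun k => (v (a k) : ℚ)) h3
    apply Subtype.ext
    funext i
    by_cases hi : i ∈ Set.range a
    · obtain ⟨k, rfl⟩ := hi
      have := h5 k
      exact_mod_cast this
    · exact h1 i hi
  have h6 : Module.finrank ℤ Λ ≤ Module.finrank ℤ (J → ℤ) :=
    LinearMap.finrank_le_finrank_of_injective hφ
  have h7 : Module.finrank ℤ (J → ℤ) = Fintype.card J := Module.finrank_fintype_fun_eq_card ℤ
  have h8 : Fintype.card J + Fintype.card κ = Fintype.card ι := by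
    have h9 : Fintype.card (Set.range a) = Fintype.card κ := Set.card_range_of_injective ha
    have h10 := Fintype.card_subtype_compl (fun i => i ∈ Set.range a)
    have h11 : Fintype.card {i // i ∈ Set.range a} = Fintype.card κ := by
      rw [← h9]
    have h12 : Fintype.card J = Fintype.card ι - Fintype.card {i // i ∈ Set.range a} := by
      rw [← h10]
    have h13 : Fintype.card κ ≤ Fintype.card ι := Fintype.card_le_of_injective a ha
    omega
  unfold dd
  omega

theorem not_ineq_of_dlt {ι : Type} [Fintype ι] (r : ι → ℂ) (hr : ∀ i, IsAlgebraic ℚ (r i))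
    (h : 1 ≤ dlt FF (Submodule.span ℚ (Set.range r))) : ¬ Ineq r := by
  classical
  intro hI
  obtain ⟨κ, a, ha, hsp, hli⟩ := exists_linearIndependent' ℚ r
  have : Finite κ := Finite.of_injective a ha
  have : Fintype κ := Fintype.ofFinite κ
  have hdd := le_dd_of_basis r hr a ha hli
  have hV := PV_span hr
  have h1 := dlt_add FF hV
  have h2 : finrank ℚ (Submodule.span ℚ (Set.range r)) = Fintype.card κ := by
    rw [← hsp]
    exact finrank_span_eq_card hli
  obtain ⟨S, hST, hS, hcard⟩ := exists_indep_subset FF (Set.range r ∪ Set.range fun i => exp (r i))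
  have hfin : S.Finite := ((Set.finite_range r).union (Set.finite_range _)).subset hST
  have h3 : S.encard ≤ rkF FF (Submodule.span ℚ (Set.range r)) := by
    apply Matroid.Indep.encard_le_eRk_of_subset
    · exact hS
    · intro s hs
      rcases hST hs with ⟨i, hi⟩ | ⟨i, hi⟩
      · exfalso
        have h4 := hS.transcendental ⟨s, hs⟩
        apply h4
        have h5 : (⟨s, hs⟩ : S).1 = algebraMap FF ℂ ⟨r i, alg_FF (hr i)⟩ := hi.symm
        rw [h5]
        exact isAlgebraic_algebraMap _
      · exact ⟨r i, Submodule.subset_span ⟨i, rfl⟩, hi⟩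
  rw [← rkN_coe FF hV] at h3
  have h4 : S.encard < (Fintype.card κ : ℕ) := by
    refine h3.trans_lt ?_
    exact_mod_cast (by omega : rkN FF (Submodule.span ℚ (Set.range r)) < Fintype.card κ)
  have h5 : Cardinal.mk S < (Fintype.card κ : ℕ) := by
    have : Fintype S := hfin.fintype
    rw [Cardinal.mk_fintype]
    rw [Set.encard_eq_coe_toFinset_card, Set.toFinset_card] at h4
    exact_mod_cast h4
  have h6 : (Fintype.card κ : Cardinal) ≤ (dd (fun i => exp (r i)) : Cardinal) := by
    exact_mod_cast hdd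
  exact absurd (h6.trans (hI.trans hcard)) (not_le.2 h5)

end Pool.Agent.MP_4aec10_nt
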