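import Pool.Agent.MP_4aec10_nt.LW7

set_option autoImplicit false

/-! The exceptional space of the period, and products with arbitrary points. -/

namespace Pool.Agent.MP_4aec10_nt

open Complex Module

theorem disjoint_conj {V W : Submodule ℚ ℂ} (hV : ∀ v ∈ V, (starRingEnd ℂ) v ∈ V) (h : V ≤ W)
    (hW : Disjoint W (W.map cj)) : V = ⊥ := by
  rw [eq_bot_iff]
  intro v hv
  have h1 : v ∈ W.map cj := ⟨(starRingEnd ℂ) v, h (hV v hv), Complex.conj_conj v⟩
  exact hW.le_bot ⟨h hv, h1⟩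

/-- the exceptional space of the period -/
theorem exists_V0 : ∃ V₀ : Submodule ℚ ℂ, PV V₀ ∧ (∀ v ∈ V₀, (starRingEnd ℂ) v ∈ V₀) ∧
    (∀ W, PV W → (V₀ ≤ W → V₀ = ⊥) → dlt FF W = 0) ∧
    (∀ W, PV W → V₀ ≠ ⊥ → V₀ ≤ W → 1 ≤ dlt FF W) := by
  obtain ⟨V₀, hV₀, hmax, -, hmin⟩ := exists_exc FF trdeg_FF
  have h1 := dlt_le FF trdeg_FF hV₀
  have := hV₀.1
  refine ⟨V₀, hV₀, ?_, ?_, ?_⟩
  · have h2 : dlt FF (V₀.map cj) = dlt FF V₀ :=
      le_antisymm (hmax _ hV₀.cj) (dlt_cj FF_conj hV₀)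
    have h3 : V₀ ≤ V₀.map cj := hmin _ hV₀.cj h2
    have h4 : V₀ = V₀.map cj := Submodule.eq_of_le_of_finrank_eq h3 (finrank_cj V₀).symm
    intro v hv
    rw [h4] at hv
    obtain ⟨w, hw, rfl⟩ := hv
    rw [cj_apply, Complex.conj_conj]
    exact hw
  · intro W hW h
    by_contra h0
    have h2 := hmax W hW
    have h3 := hmin W hW (by omega)
    rw [h h3, dlt_bot] at h2
    omega
  · intro W hW h0 h
    have h2 := dlt_mono FF hW h
    by_contra h3
    apply h0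
    rw [eq_bot_iff]
    apply hmin ⊥ PV_bot
    rw [dlt_bot]
    omega

/-- `d` is subadditive -/
theorem dd_sum {κ ι : Type} [Fintype κ] [Fintype ι] (x : κ → ℂ) (y : ι → ℂ) :
    dd (Sum.elim x y) ≤ dd x + dd y := by
  classical
  have hne : ∀ (σ : Type) [Fintype σ] (z : σ → ℂ),
      {k | ∃ Λ : AddSubgroup (σ → ℤ), k + Module.finrank ℤ Λ = Fintype.card σ ∧
      LiesIn z Λ}.Nonempty := by
    intro σ _ z
    refine ⟨Fintype.card σ, ⊥, ?_, fun _ => 1, fun i => ⟨one_ne_zero, isAlgebraic_one⟩, ?_⟩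
    · have : Module.finrank ℤ (⊥ : AddSubgroup (σ → ℤ)) = 0 := by
        have : Subsingleton (⊥ : AddSubgroup (σ → ℤ)) := inferInstance
        exact Module.finrank_zero_of_subsingleton
      omega
    · intro a ha
      rw [AddSubgroup.mem_bot] at ha
      subst ha
      simp
  obtain ⟨Λ₁, hΛ₁, y₁, hy₁, hyΛ₁⟩ := Nat.sInf_mem (hne κ x)
  obtain ⟨Λ₂, hΛ₂, y₂, hy₂, hyΛ₂⟩ := Nat.sInf_mem (hne ι y)
  change dd x + _ = _ at hΛ₁
  change dd y + _ = _ at hΛ₂
  let Λ : AddSubgroup (κ ⊕ ι → ℤ) :=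
    { carrier := {v | v ∘ Sum.inl ∈ Λ₁ ∧ v ∘ Sum.inr ∈ Λ₂}
      add_mem' := fun {a b} ha hb => ⟨Λ₁.add_mem ha.1 hb.1, Λ₂.add_mem ha.2 hb.2⟩
      zero_mem' := ⟨Λ₁.zero_mem, Λ₂.zero_mem⟩
      neg_mem' := fun {a} ha => ⟨Λ₁.neg_mem ha.1, Λ₂.neg_mem ha.2⟩ }
  let e : Λ ≃ₗ[ℤ] Λ₁ × Λ₂ :=
    { toFun := fun v => (⟨v.1 ∘ Sum.inl, v.2.1⟩, ⟨v.1 ∘ Sum.inr, v.2.2⟩)
      map_add' := fun _ _ => rfl
      map_smul' := fun _ _ => rfl
      invFun := fun w => ⟨Sum.elim w.1.1 w.2.1, w.1.2, w.2.2⟩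
      left_inv := fun v => Subtype.ext (Sum.elim_comp_inl_inr v.1)
      right_inv := fun w => rfl }
  have hf : ∀ (σ : Type) [Fintype σ] (Γ : AddSubgroup (σ → ℤ)), Module.Free ℤ Γ ∧
      Module.Finite ℤ Γ := fun σ _ Γ =>
    ⟨inferInstanceAs (Module.Free ℤ (AddSubgroup.toIntSubmodule Γ)),
      inferInstanceAs (Module.Finite ℤ (AddSubgroup.toIntSubmodule Γ))⟩
  have hrank : Module.finrank ℤ Λ = Module.finrank ℤ Λ₁ + Module.finrank ℤ Λ₂ := by
    have := (hf κ Λ₁).1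
    have := (hf κ Λ₁).2
    have := (hf ι Λ₂).1
    have := (hf ι Λ₂).2
    rw [e.finrank_eq, Module.finrank_prod]
  refine Nat.sInf_le ⟨Λ, ?_, Sum.elim y₁ y₂, ?_, ?_⟩
  · rw [hrank, Fintype.card_sum]
    omega
  · rintro (i | i)
    · exact hy₁ i
    · exact hy₂ i
  · intro v hv
    rw [Fintype.prod_sum_type, Fintype.prod_sum_type]
    have h1 := hyΛ₁ _ hv.1
    have h2 := hyΛ₂ _ hv.2
    simp only [Sum.elim_inl, Sum.elim_inr]
    simp only [Function.comp_apply] at h1 h2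
    rw [h1, h2]

/-- products with an arbitrary point -/
theorem ineq_sum {κ : Type} [Fintype κ] (r : κ → ℂ) : ∃ V : Submodule ℚ ℂ, PV V ∧
    ∀ (ι : Type) [Fintype ι] (α l : ι → ℂ), (∀ i, IsAlgebraic ℚ (α i)) →
      (∀ i, IsAlgebraic ℚ (exp (l i))) → Disjoint (Submodule.span ℚ (Set.range α)) V →
      Ineq r → Ineq (Sum.elim r (α + l)) := by
  classical
  set L' := IntermediateField.adjoin FF (Set.range r ∪ Set.range fun i => exp (r i)) with hL'
  let F' : IntermediateField ℚ ℂ := L'.restrictScalars ℚ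
  obtain ⟨S, hST, hS, hcard⟩ := exists_indep_subset FF (Set.range r ∪ Set.range fun i => exp (r i))
  have hfin : S.Finite := ((Set.finite_range r).union (Set.finite_range _)).subset hST
  have : Fintype S := hfin.fintype
  have htr : Algebra.trdeg ℚ F' ≤ ((1 + Fintype.card S : ℕ) : Cardinal) := by
    have h1 : Algebra.trdeg ℚ FF + Algebra.trdeg FF L' = Algebra.trdeg ℚ L' := trdeg_add_eq ℚ FF
    have h2 : Algebra.trdeg ℚ F' = Algebra.trdeg ℚ L' := rfl
    rw [h2, ← h1]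
    push_cast
    rw [Cardinal.mk_fintype] at hcard
    have h3 := trdeg_FF
    rw [Nat.cast_one] at h3
    exact add_le_add h3 hcard
  obtain ⟨V, hV, -, hV2, -⟩ := exists_exc F' htr
  refine ⟨V, hV, ?_⟩
  intro ι _ α l hα hl hdis hI
  obtain ⟨κ₂, a, ha, hsp, hli⟩ := exists_linearIndependent' ℚ α
  have : Finite κ₂ := Finite.of_injective a ha
  have : Fintype κ₂ := Fintype.ofFinite κ₂
  have hdd := dd_le_of_basis α l hl a ha hsp
  have h0 : dlt F' (Submodule.span ℚ (Set.range (α ∘ a))) = 0 := by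
    rw [hsp]
    have h1 := hV2 _ (PV_span hα)
    rw [hdis.eq_bot, dlt_bot] at h1
    omega
  have hind : AlgebraicIndependent F' fun k => exp ((α ∘ a) k) :=
    algInd_of_dlt F' (α ∘ a) (fun k => hα (a k)) hli h0
  have hind' : AlgebraicIndependent L' fun k => exp ((α ∘ a) k) := hind
  have hSL : Set.range ((↑) : S → ℂ) ⊆ Set.range (algebraMap L' ℂ) := by
    rintro _ ⟨s, rfl⟩
    exact ⟨⟨s, IntermediateField.subset_adjoin FF _ (hST s.2)⟩, rfl⟩
  have hsum : AlgebraicIndependent FF (Sum.elim (fun k => exp ((α ∘ a) k)) ((↑) : S → ℂ)) :=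
    hS.sumElim_of_tower hSL hind'
  set r' : κ ⊕ ι → ℂ := Sum.elim r (α + l) with hr'
  set L := IntermediateField.adjoin FF (Set.range r' ∪ Set.range fun i => exp (r' i)) with hL
  have hmem : ∀ k, Sum.elim (fun k => exp ((α ∘ a) k)) ((↑) : S → ℂ) k ∈ L := by
    rintro (k | s)
    · have h1 : exp (r' (Sum.inr (a k))) ∈ L :=
        IntermediateField.subset_adjoin FF _ (Or.inr ⟨Sum.inr (a k), rfl⟩)
      have h2 : (exp (l (a k)))⁻¹ ∈ L :=
        L.algebraMap_mem ⟨(exp (l (a k)))⁻¹, alg_FF (hl (a k)).inv⟩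
      have h3 : exp ((α ∘ a) k) = exp (r' (Sum.inr (a k))) * (exp (l (a k)))⁻¹ := by
        rw [hr', Sum.elim_inr, Pi.add_apply, exp_add, mul_assoc, mul_inv_cancel₀ (exp_ne_zero _),
          mul_one]
        rfl
      rw [Sum.elim_inl, h3]
      exact mul_mem h1 h2
    · rw [Sum.elim_inr]
      rcases hST s.2 with ⟨i, hi⟩ | ⟨i, hi⟩
      · rw [← hi]
        exact IntermediateField.subset_adjoin FF _ (Or.inl ⟨Sum.inl i, rfl⟩)
      · rw [← hi]
        exact IntermediateField.subset_adjoin FF _ (Or.inr ⟨Sum.inl i, rfl⟩)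
  have h1 : AlgebraicIndependent FF fun k => (⟨_, hmem k⟩ : L) :=
    AlgebraicIndependent.of_comp L.val hsum
  have h2 := h1.cardinalMk_le_trdeg
  rw [Cardinal.mk_sum, Cardinal.lift_id, Cardinal.lift_id] at h2
  have h3 : dd (fun i => exp (r' i)) ≤ dd (fun i => exp (r i)) + Fintype.card κ₂ := by
    have h4 : (fun i => exp (r' i)) =
        Sum.elim (fun i => exp (r i)) (fun i => exp ((α + l) i)) := by
      funext i
      rcases i with i | i <;> rfl
    rw [h4]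
    exact (dd_sum _ _).trans (by omega)
  show ((dd (fun i => exp (r' i)) : ℕ) : Cardinal) ≤ Algebra.trdeg FF L
  calc ((dd (fun i => exp (r' i)) : ℕ) : Cardinal)
      ≤ ((dd (fun i => exp (r i)) + Fintype.card κ₂ : ℕ) : Cardinal) := by exact_mod_cast h3
    _ = (dd (fun i => exp (r i)) : Cardinal) + (Fintype.card κ₂ : Cardinal) := by push_cast; rfl
    _ ≤ Cardinal.mk S + (Fintype.card κ₂ : Cardinal) := add_le_add_left (hI.trans hcard) _
    _ = Cardinal.mk κ₂ + Cardinal.mk S := by rw [Cardinal.mk_fintype κ₂, add_comm]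
    _ ≤ _ := h2

end Pool.Agent.MP_4aec10_nt
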