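import Pool.Agent.MP_4aec10_nt.LW8

set_option autoImplicit false

/-! The conjugation criterion: adding the complex conjugate point removes the period. -/

namespace Pool.Agent.MP_4aec10_nt

open Complex Module

theorem conj_comps {ι : Type} (r : ι → ℂ) :
    (starRingEnd ℂ) '' comps r = comps fun i => (starRingEnd ℂ) (r i) := by
  unfold comps
  rw [Set.image_union, ← Set.range_comp, ← Set.range_comp]
  congr 1
  congr 1
  funext i
  exact (Complex.exp_conj (r i)).symm

theorem comps_elim {κ ι : Type} (r : κ → ℂ) (s : ι → ℂ) :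
    comps (Sum.elim r s) = comps r ∪ comps s := by
  ext x
  constructor
  · rintro (⟨i | i, hi⟩ | ⟨i | i, hi⟩)
    · exact Or.inl (Or.inl ⟨i, hi⟩)
    · exact Or.inr (Or.inl ⟨i, hi⟩)
    · exact Or.inl (Or.inr ⟨i, hi⟩)
    · exact Or.inr (Or.inr ⟨i, hi⟩)
  · rintro ((⟨i, hi⟩ | ⟨i, hi⟩) | (⟨i, hi⟩ | ⟨i, hi⟩))
    · exact Or.inl ⟨Sum.inl i, hi⟩
    · exact Or.inr ⟨Sum.inl i, hi⟩
    · exact Or.inl ⟨Sum.inr i, hi⟩
    · exact Or.inr ⟨Sum.inr i, hi⟩

theorem conj_criterion {ι : Type} [Fintype ι] (r : ι → ℂ)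
    (h : ((2 * dd (fun i => exp (r i)) : ℕ) : Cardinal) ≤ Algebra.trdeg FF
      (IntermediateField.adjoin FF (comps r ∪ comps fun i => (starRingEnd ℂ) (r i))) + 1) :
    Ineq r := by
  classical
  rw [← conj_comps] at h
  set T := comps r with hT
  have hTfin : T.Finite := (Set.finite_range r).union (Set.finite_range _)
  obtain ⟨S, hST, hS, hcard⟩ := exists_indep_subset FF (T ∪ (starRingEnd ℂ) '' T)
  have hSfin : S.Finite := (hTfin.union (hTfin.image _)).subset hST
  have hfS : Fintype S := hSfin.fintype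
  -- a basis of `T`
  obtain ⟨I, hI⟩ := (MF FF).exists_isBasis' T
  have hIfin : I.Finite := hTfin.subset hI.subset
  have hfI : Fintype I := hIfin.fintype
  have h1 : (Fintype.card S : ℕ∞) ≤ 2 * Fintype.card I := by
    have e1 : S.encard = Fintype.card S := by
      rw [Set.encard_eq_coe_toFinset_card, Set.toFinset_card]
    have e2 : I.encard = Fintype.card I := by
      rw [Set.encard_eq_coe_toFinset_card, Set.toFinset_card]
    have hS' : (MF FF).Indep S := hS
    have h2 := hS'.encard_le_eRk_of_subset hST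
    have h3 := (MF FF).eRk_union_le_eRk_add_eRk T ((starRingEnd ℂ) '' T)
    have h4 : (MF FF).eRk ((starRingEnd ℂ) '' T) ≤ (MF FF).eRk T := by
      refine (eRk_conj_le FF_conj _).trans ((MF FF).eRk_mono ?_)
      rintro _ ⟨_, ⟨x, hx, rfl⟩, rfl⟩
      rw [Complex.conj_conj]
      exact hx
    rw [← e1, ← e2, two_mul, hI.encard_eq_eRk]
    exact h2.trans (h3.trans (add_le_add_right h4 _))
  have h1' : Fintype.card S ≤ 2 * Fintype.card I := by exact_mod_cast h1
  set L := IntermediateField.adjoin FF T with hL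
  have hind : AlgebraicIndependent FF (fun x : I => (x : ℂ)) := hI.indep
  have h5 : AlgebraicIndependent FF fun x : I =>
      (⟨(x : ℂ), IntermediateField.subset_adjoin FF _ (hI.subset x.2)⟩ : L) :=
    AlgebraicIndependent.of_comp L.val hind
  have h6 := h5.cardinalMk_le_trdeg
  rw [Cardinal.mk_fintype] at h6 hcard
  have h7 : ((2 * dd (fun i => exp (r i)) : ℕ) : Cardinal) ≤ ((Fintype.card S + 1 : ℕ) : Cardinal) := by
    push_cast
    refine le_trans ?_ (add_le_add_left hcard 1)
    push_cast at h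
    exact h
  have h8 : 2 * dd (fun i => exp (r i)) ≤ Fintype.card S + 1 := by exact_mod_cast h7
  have h9 : dd (fun i => exp (r i)) ≤ Fintype.card I := by omega
  exact le_trans (by exact_mod_cast h9) h6

/-- the criterion with the transcendence degree over `ℚ` -/
theorem conj_criterion_rat {ι : Type} [Fintype ι] (r : ι → ℂ)
    (h : ((2 * dd (fun i => exp (r i)) : ℕ) : Cardinal) ≤ Algebra.trdeg ℚ
      (IntermediateField.adjoin ℚ (comps r ∪ comps fun i => (starRingEnd ℂ) (r i)))) :
    Ineq r := by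
  apply conj_criterion
  set X := comps r ∪ comps fun i => (starRingEnd ℂ) (r i) with hX
  let L := IntermediateField.adjoin FF X
  have h1 : IntermediateField.adjoin ℚ X ≤ L.restrictScalars ℚ := by
    rw [IntermediateField.adjoin_le_iff]
    exact IntermediateField.subset_adjoin FF X
  have h2 : Algebra.trdeg ℚ (IntermediateField.adjoin ℚ X) ≤ Algebra.trdeg ℚ L :=
    trdeg_le_of_injective (IntermediateField.inclusion h1)
      (IntermediateField.inclusion_injective h1)
  have h3 : Algebra.trdeg ℚ FF + Algebra.trdeg FF L = Algebra.trdeg ℚ L := trdeg_add_eq ℚ FF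
  have h4 := trdeg_FF
  rw [Nat.cast_one] at h4
  refine h.trans (h2.trans ?_)
  rw [← h3, add_comm]
  exact add_le_add_right h4 _

/-- reduction to self-conjugate points -/
theorem conj_reduction {ι : Type} [Fintype ι] (r : ι → ℂ)
    (h : 2 * dd (fun i => exp (r i)) ≤
      dd (fun i => exp (Sum.elim r (fun i => (starRingEnd ℂ) (r i)) i)) + 1)
    (hI : Ineq (Sum.elim r fun i => (starRingEnd ℂ) (r i))) : Ineq r := by
  apply conj_criterion
  rw [← comps_elim]
  refine le_trans ?_ (add_le_add_left hI 1)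
  exact_mod_cast h

theorem pi_transcendental : Transcendental ℚ (Real.pi : ℂ) := by
  intro h
  have h1 : IsAlgebraic ℚ (2 * Real.pi * I : ℂ) :=
    (((isAlgebraic_nat 2).mul h)).mul (by
      have h2 : IsAlgebraic ℚ (I ^ 2) := by
        rw [Complex.I_sq]
        exact isAlgebraic_one.neg
      exact IsAlgebraic.of_pow (by norm_num) h2)
  have h3 := hermite h1 (by
    rw [Complex.exp_two_pi_mul_I]
    exact isAlgebraic_one)
  exact Complex.two_pi_I_ne_zero h3

theorem pi_mem_FF : (Real.pi : ℂ) ∈ FF := by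
  have h1 : (2 * Real.pi * I : ℂ) ∈ FF := by
    apply mem_FF.2
    exact isAlgebraic_algebraMap
      (⟨_, Algebra.subset_adjoin rfl⟩ : Algebra.adjoin ℚ {(2 * Real.pi * I : ℂ)})
  have h2 : (2 * I : ℂ) ∈ FF := alg_FF ((isAlgebraic_nat 2).mul (by
      have h2 : IsAlgebraic ℚ (I ^ 2) := by
        rw [Complex.I_sq]
        exact isAlgebraic_one.neg
      exact IsAlgebraic.of_pow (by norm_num) h2))
  have h3 : (Real.pi : ℂ) = (2 * Real.pi * I) / (2 * I) := by
    have := Complex.I_ne_zero
    field_simp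
  rw [h3]
  exact div_mem h1 h2

/-- algebraic independence of `π` and exponentials -/
theorem pi_exp_algInd {ι : Type} [Fintype ι] (α : ι → ℂ) (hα : ∀ i, IsAlgebraic ℚ (α i))
    (hli : LinearIndependent ℚ (Sum.elim α fun i => (starRingEnd ℂ) (α i))) :
    AlgebraicIndependent ℚ fun o : Option ι => o.elim (Real.pi : ℂ) fun i => exp (α i) := by
  obtain ⟨V₀, hV₀, hc, h1, -⟩ := exists_V0
  rw [linearIndependent_sum] at hli
  obtain ⟨hli1, -, hd⟩ := hli
  have h0 : dlt FF (Submodule.span ℚ (Set.range α)) = 0 := by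
    refine h1 _ (PV_span hα) fun hle => disjoint_conj hc hle ?_
    have h3 : (Submodule.span ℚ (Set.range α)).map cj =
        Submodule.span ℚ (Set.range fun i => (starRingEnd ℂ) (α i)) := by
      rw [Submodule.map_span, ← Set.range_comp]
      rfl
    rw [h3]
    exact hd
  have hind := algInd_of_dlt FF α hα hli1 h0
  have hpi : AlgebraicIndependent ℚ fun _ : Unit => (Real.pi : ℂ) :=
    algebraicIndependent_unique_type_iff.2 pi_transcendental
  have hsum := hpi.sumElim_of_tower (S := FF) (by
    rintro _ ⟨_, rfl⟩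
    exact ⟨⟨_, pi_mem_FF⟩, rfl⟩) hind
  refine (algebraicIndependent_equiv' (Equiv.optionEquivSumPUnit ι) ?_).2 hsum
  funext o
  rcases o with _ | i <;> rfl

end Pool.Agent.MP_4aec10_nt
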