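import Pool.Agent.MP_4aec10_nt.Defs

set_option autoImplicit false

/-! Linear forms and differentials of special functions. -/

namespace Pool.Agent.MP_4aec10_nt

open Complex

variable {ι : Type} [Fintype ι]

theorem lin_zero (w : ι → ℂ) : lin 0 w = 0 := by simp [lin]

theorem lin_add (l l' : ι → ℤ) (w : ι → ℂ) : lin (l + l') w = lin l w + lin l' w := by
  simp only [lin, Pi.add_apply, Int.cast_add, add_mul, Finset.sum_add_distrib]

theorem lin_neg (l : ι → ℤ) (w : ι → ℂ) : lin (-l) w = -lin l w := by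
  simp only [lin, Pi.neg_apply, Int.cast_neg, neg_mul, Finset.sum_neg_distrib]

theorem lin_sub (l l' : ι → ℤ) (w : ι → ℂ) : lin (l - l') w = lin l w - lin l' w := by
  rw [sub_eq_add_neg, lin_add, lin_neg, sub_eq_add_neg]

theorem lin_smul (n : ℤ) (l : ι → ℤ) (w : ι → ℂ) : lin (n • l) w = n * lin l w := by
  simp only [lin, Pi.smul_apply, smul_eq_mul, Int.cast_mul, Finset.mul_sum, mul_assoc]

theorem lin_nsmul (n : ℕ) (l : ι → ℤ) (w : ι → ℂ) : lin (n • l) w = n * lin l w := by
  simp only [lin, Pi.smul_apply, smul_eq_mul, nsmul_eq_mul, Int.cast_mul, Int.cast_natCast,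
    Finset.mul_sum, mul_assoc]

theorem lin_single [DecidableEq ι] (i : ι) (n : ℤ) (w : ι → ℂ) :
    lin (Pi.single i n) w = n * w i := by
  rw [lin, Finset.sum_eq_single i]
  · simp
  · intro j _ hj
    simp [Pi.single_eq_of_ne hj]
  · intro h
    exact absurd (Finset.mem_univ i) h

theorem lin_add_right (l : ι → ℤ) (w w' : ι → ℂ) : lin l (w + w') = lin l w + lin l w' := by
  simp only [lin, Pi.add_apply, mul_add, Finset.sum_add_distrib]

theorem lin_smul_right (l : ι → ℤ) (c : ℂ) (w : ι → ℂ) : lin l (c • w) = c * lin l w := by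
  simp only [lin, Pi.smul_apply, smul_eq_mul, Finset.mul_sum]
  exact Finset.sum_congr rfl fun i _ => by ring

theorem exp_lin (l : ι → ℤ) (w : ι → ℂ) : exp (lin l w) = ∏ i, exp (w i) ^ l i := by
  rw [lin, Complex.exp_sum]
  exact Finset.prod_congr rfl fun i _ => by rw [Complex.exp_int_mul]

/-- The linear form as a continuous linear map. -/
noncomputable def linL (l : ι → ℤ) : (ι → ℂ) →L[ℂ] ℂ :=
  ∑ i, (l i : ℂ) • ContinuousLinearMap.proj i

theorem linL_apply (l : ι → ℤ) (w : ι → ℂ) : linL l w = lin l w := by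
  simp [linL, lin]

theorem fderiv_exp_lin (c : ℂ) (l : ι → ℤ) (p : (ι → ℂ) × (ι → ℂ)) :
    HasFDerivAt (fun q : (ι → ℂ) × (ι → ℂ) => c * exp (lin l q.2))
      ((c * exp (lin l p.2)) • (linL l).comp (ContinuousLinearMap.snd ℂ (ι → ℂ) (ι → ℂ))) p := by
  have h1 : HasFDerivAt (fun q : (ι → ℂ) × (ι → ℂ) => lin l q.2)
      ((linL l).comp (ContinuousLinearMap.snd ℂ (ι → ℂ) (ι → ℂ))) p := by
    have := ((linL l).comp (ContinuousLinearMap.snd ℂ (ι → ℂ) (ι → ℂ))).hasFDerivAt (x := p)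
    refine this.congr_of_eventuallyEq (Filter.Eventually.of_forall fun q => ?_)
    simp [linL_apply]
  have h2 := (h1.cexp).const_mul c
  rw [smul_smul] at h2
  exact h2

/-- Differential of the first kind of special function. -/
theorem fderiv_kindA {f : (ι → ℂ) × (ι → ℂ) → ℂ} {i : ι} {c : ℂ} {l : ι → ℤ}
    (hf : ∀ p, f p = p.1 i - c * exp (lin l p.2)) (p v : (ι → ℂ) × (ι → ℂ)) :
    fderiv ℂ f p v = v.1 i - c * exp (lin l p.2) * lin l v.2 := by
  have hf' : f = fun p => p.1 i - c * exp (lin l p.2) := funext hf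
  have h1 : HasFDerivAt (fun q : (ι → ℂ) × (ι → ℂ) => q.1 i)
      ((ContinuousLinearMap.proj i).comp (ContinuousLinearMap.fst ℂ (ι → ℂ) (ι → ℂ))) p :=
    ((ContinuousLinearMap.proj (R := ℂ) (φ := fun _ : ι => ℂ) i).comp
      (ContinuousLinearMap.fst ℂ (ι → ℂ) (ι → ℂ))).hasFDerivAt (x := p)
  have h2 : HasFDerivAt (fun q : (ι → ℂ) × (ι → ℂ) => q.1 i - c * exp (lin l q.2)) _ p :=
    h1.sub (fderiv_exp_lin c l p)
  rw [hf', h2.fderiv]
  simp [linL_apply]

/-- Differential of the second kind of special function. -/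
theorem fderiv_kindB {f : (ι → ℂ) × (ι → ℂ) → ℂ} {c c' : ℂ} {l l' : ι → ℤ}
    (hf : ∀ p, f p = c * exp (lin l p.2) + c' * exp (lin l' p.2) - 1) (p v : (ι → ℂ) × (ι → ℂ)) :
    fderiv ℂ f p v = c * exp (lin l p.2) * lin l v.2 + c' * exp (lin l' p.2) * lin l' v.2 := by
  have hf' : f = fun p => c * exp (lin l p.2) + c' * exp (lin l' p.2) - 1 := funext hf
  have h2 : HasFDerivAt (fun q : (ι → ℂ) × (ι → ℂ) =>
      c * exp (lin l q.2) + c' * exp (lin l' q.2) - 1) _ p :=
    ((fderiv_exp_lin c l p).add (fderiv_exp_lin c' l' p)).sub_const 1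
  rw [hf', h2.fderiv]
  simp [linL_apply]

/-- Logarithmic derivative of a monomial in exponentials. -/
theorem deriv_exp_lin {K : IntermediateField ℚ ℂ} (D : Derivation K ℂ ℂ) (z : ι → ℂ) (l : ι → ℤ) :
    D (exp (lin l z)) = exp (lin l z) * lin l (fun i => D (exp (z i)) / exp (z i)) := by
  classical
  have key : ∀ s : Finset ι, D (∏ i ∈ s, exp (z i) ^ l i) =
      (∏ i ∈ s, exp (z i) ^ l i) * ∑ i ∈ s, (l i : ℂ) * (D (exp (z i)) / exp (z i)) := by
    intro s
    induction s using Finset.induction_on with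
    | empty => simp
    | insert a s ha ih =>
      rw [Finset.prod_insert ha, Finset.sum_insert ha, Derivation.leibniz, ih,
        Derivation.leibniz_zpow]
      have h0 := Complex.exp_ne_zero (z a)
      have h1 : exp (z a) ^ (l a - 1) = exp (z a) ^ l a / exp (z a) := zpow_sub_one₀ h0 _
      simp only [smul_eq_mul, zsmul_eq_mul, h1]
      field_simp
      ring
  rw [exp_lin, key Finset.univ]
  rfl

end Pool.Agent.MP_4aec10_nt
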