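import Mathlib
import Pool.Agent.MP_4aec10_nt.Defs
import Pool.Agent.MP_4aec10_nt.Final

namespace Pool.Agent.MP_4aec10_nt.NormalFormVariant

open Pool.Agent.MP_4aec10_nt

/-- The inequality of Q1 for all tori holds if and only if no tuple `z` with `e^z` multiplicatively
independent modulo the algebraic numbers is, on the diagonal, a nondegenerate common zero of
`|ι| + 1` special functions. -/
theorem result : WeakSchanuelTori ↔ NoTransversal :=
  equivalence

end Pool.Agent.MP_4aec10_nt.NormalFormVariant
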