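import Pool.Agent.LTD.FinR

set_option autoImplicit false

namespace Pool.Agent.MP_4aec10_nt.NumberFieldPointsVariant

open Pool.Agent.MP_4aec10_nt LTD

/-- Algebraic independence over a given field of finite transcendence degree, hence the inequality of
Q1, at almost all points with coordinates in a multiple of a number field. -/
theorem result :
    (∀ n t : ℕ, ∃ m : ℕ, 1 ≤ m ∧ ∀ F : IntermediateField ℚ ℂ, Algebra.trdeg ℚ F ≤ (t : Cardinal) →
      ∀ z : ℂ, z ≠ 0 → ∀ (K : IntermediateField ℚ ℂ) (D : ℕ) (w : Module.Basis (Fin D) ℚ K) (H : ℕ),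
        Set.ncard {a : Fin n → Fin D → ℤ | (∀ i j, |a i j| ≤ (H : ℤ)) ∧
          ¬ AlgebraicIndependent F fun i =>
            Complex.exp (z * ∑ j, ((a i j : ℤ) : ℂ) * (w j : ℂ))} ≤
          n * (2 * H + 1) ^ (n * D - D / m)) ∧
    (∀ n l : ℕ, ∃ m : ℕ, 1 ≤ m ∧ ∀ z : ℂ, z ≠ 0 →
      ∀ (K : IntermediateField ℚ ℂ) (D : ℕ) (w : Module.Basis (Fin D) ℚ K) (H : ℕ),
      ∀ r : Fin l → ℂ, Ineq r →
        Set.ncard {a : Fin n → Fin D → ℤ | (∀ i j, |a i j| ≤ (H : ℤ)) ∧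
          ¬ (dd (fun i => Complex.exp (z * ∑ j, ((a i j : ℤ) : ℂ) * (w j : ℂ))) = n ∧
            Ineq (fun i => z * ∑ j, ((a i j : ℤ) : ℂ) * (w j : ℂ)) ∧
            Ineq (Sum.elim r fun i => z * ∑ j, ((a i j : ℤ) : ℂ) * (w j : ℂ)))} ≤
          n * (2 * H + 1) ^ (n * D - D / m)) :=
  ⟨nf_final, nf_q1⟩

end Pool.Agent.MP_4aec10_nt.NumberFieldPointsVariant
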